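import Pool.Agent.H48.Dyn

/-!
# Codes of measure preserving maps
-/

set_option autoImplicit false

open MeasureTheory Filter Topology
open scoped unitInterval

namespace Pool.Agent.H48

/-- the rational interval -/
def RI (p : ℚ × ℚ) : Set unitInterval :=
  {x : unitInterval | ((p.1 : ℚ) : ℝ) ≤ (x : ℝ) ∧ (x : ℝ) ≤ ((p.2 : ℚ) : ℝ)}

lemma measurableSet_RI (p : ℚ × ℚ) : MeasurableSet (RI p) :=
  (measurableSet_le measurable_const measurable_subtype_coe).inter
    (measurableSet_le measurable_subtype_coe measurable_const)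

/-- the code of a map -/
noncomputable def cde (T : unitInterval → unitInterval) (p : (ℚ × ℚ) × (ℚ × ℚ)) : ℝ :=
  (volume (T ⁻¹' RI p.1 ∩ RI p.2)).toReal

lemma cde_congr {T T' : unitInterval → unitInterval} (h : T =ᵐ[volume] T') : cde T = cde T' := by
  funext p
  unfold cde
  congr 1
  apply measure_congr
  filter_upwards [h] with x hx
  apply propext
  change (T x ∈ RI p.1 ∧ x ∈ RI p.2) ↔ (T' x ∈ RI p.1 ∧ x ∈ RI p.2)
  rw [hx]

/-- the code determines the map almost everywhere -/
lemma ae_eq_of_cde {T T' : unitInterval → unitInterval} (hT : Measurable T) (hT' : Measurable T')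
    (h : cde T = cde T') : T =ᵐ[volume] T' := by
  have hv : Measurable (fun t : unitInterval => (t : ℝ)) := measurable_subtype_coe
  set A : (unitInterval → unitInterval) → ℚ → Set unitInterval :=
    fun F q => {t | ((F t : unitInterval) : ℝ) ≤ (q : ℝ)} with hA
  have hAm : ∀ {F : unitInterval → unitInterval}, Measurable F → ∀ q, MeasurableSet (A F q) :=
    fun hF q => measurableSet_le (hv.comp hF) measurable_const
  have h1 : ∀ q r : ℚ, volume (A T q ∩ {t : unitInterval | (t : ℝ) ≤ (r : ℝ)})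
      = volume (A T' q ∩ {t : unitInterval | (t : ℝ) ≤ (r : ℝ)}) := by
    intro q r
    have h2 := congrFun h ((0, q), (0, r))
    unfold cde at h2
    rw [ENNReal.toReal_eq_toReal_iff' (measure_ne_top _ _) (measure_ne_top _ _)] at h2
    have h3 : ∀ F : unitInterval → unitInterval, F ⁻¹' RI (0, q) ∩ RI (0, r)
        = A F q ∩ {t : unitInterval | (t : ℝ) ≤ (r : ℝ)} := by
      intro F
      ext t
      change ((((0 : ℚ) : ℝ) ≤ (F t : ℝ) ∧ (F t : ℝ) ≤ (q : ℝ))
        ∧ (((0 : ℚ) : ℝ) ≤ (t : ℝ) ∧ (t : ℝ) ≤ (r : ℝ))) ↔ ((F t : ℝ) ≤ (q : ℝ) ∧ (t : ℝ) ≤ (r : ℝ))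
      rw [Rat.cast_zero]
      exact ⟨fun h => ⟨h.1.2, h.2.2⟩, fun h => ⟨⟨(F t).2.1, h.1⟩, ⟨t.2.1, h.2⟩⟩⟩
    simpa only [h3] using h2
  have h4 : ∀ q : ℚ, ∀ J : Set unitInterval, MeasurableSet J →
      volume (A T q ∩ J) = volume (A T' q ∩ J) := by
    intro q J hJ
    obtain ⟨J', hJ', rfl⟩ := hJ
    have h5 : ∀ {F : unitInterval → unitInterval}, Measurable F → ∀ J' : Set ℝ, MeasurableSet J' →
        ((volume.restrict (A F q)).map (fun t : unitInterval => (t : ℝ))) J'
          = volume (A F q ∩ (fun t : unitInterval => (t : ℝ)) ⁻¹' J') := by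
      intro F hF J' hJ'
      rw [Measure.map_apply hv hJ', Measure.restrict_apply (hv hJ'), Set.inter_comm]
    have h6 : (volume.restrict (A T q)).map (fun t : unitInterval => (t : ℝ))
        = (volume.restrict (A T' q)).map (fun t : unitInterval => (t : ℝ)) := by
      refine ext_of_generate_finite _
        (by rw [← Real.borel_eq_generateFrom_Iic_rat]; exact (BorelSpace.measurable_eq (α := ℝ)))
        Real.isPiSystem_Iic_rat ?_ ?_
      · intro s hs
        simp only [Set.mem_iUnion, Set.mem_singleton_iff] at hs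
        obtain ⟨r, rfl⟩ := hs
        rw [h5 hT _ measurableSet_Iic, h5 hT' _ measurableSet_Iic]
        exact h1 q r
      · rw [h5 hT _ MeasurableSet.univ, h5 hT' _ MeasurableSet.univ]
        have h7 := h1 q 1
        have h8 : {t : unitInterval | (t : ℝ) ≤ ((1 : ℚ) : ℝ)} = Set.univ := by
          ext t
          simp only [Rat.cast_one, Set.mem_univ, iff_true]
          exact t.2.2
        rw [h8] at h7
        exact h7
    have h9 := congrArg (fun m => m J') h6
    rw [h5 hT _ hJ', h5 hT' _ hJ'] at h9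
    exact h9
  have h10 : ∀ q : ℚ, ∀ᵐ t, (t ∈ A T q ↔ t ∈ A T' q) := by
    intro q
    have h11 : volume (A T q ∩ (A T' q)ᶜ) = 0 := by
      rw [h4 q _ (hAm hT' q).compl, Set.inter_compl_self, measure_empty]
    have h12 : volume (A T' q ∩ (A T q)ᶜ) = 0 := by
      rw [← h4 q _ (hAm hT q).compl, Set.inter_compl_self, measure_empty]
    have h13 : ∀ᵐ t, t ∉ (A T q ∩ (A T' q)ᶜ) := measure_eq_zero_iff_ae_notMem.1 h11
    have h14 : ∀ᵐ t, t ∉ (A T' q ∩ (A T q)ᶜ) := measure_eq_zero_iff_ae_notMem.1 h12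
    filter_upwards [h13, h14] with t ht1 ht2
    constructor
    · intro h; by_contra h'; exact ht1 ⟨h, h'⟩
    · intro h; by_contra h'; exact ht2 ⟨h, h'⟩
  have h15 : ∀ᵐ t, ∀ q : ℚ, (t ∈ A T q ↔ t ∈ A T' q) := ae_all_iff.2 h10
  filter_upwards [h15] with t ht
  apply Subtype.ext
  apply le_antisymm
  · by_contra hcon
    push Not at hcon
    obtain ⟨q, hq1, hq2⟩ := exists_rat_btwn hcon
    have : t ∈ A T q := (ht q).2 hq1.le
    exact absurd this (not_le.2 hq2)
  · by_contra hcon
    push Not at hcon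
    obtain ⟨q, hq1, hq2⟩ := exists_rat_btwn hcon
    have : t ∈ A T' q := (ht q).1 hq1.le
    exact absurd this (not_le.2 hq2)

/-- continuous dependence -/
lemma continuous_measure_preimage {Y X : Type} [TopologicalSpace Y] [FirstCountableTopology Y]
    [TopologicalSpace X] [PolishSpace X] [MeasurableSpace X] [BorelSpace X]
    {μ : Measure X} [IsProbabilityMeasure μ] {T : Y → X → X}
    (hT : ∀ y, MeasurePreserving (T y) μ μ) (hc : ∀ ω, Continuous fun y => T y ω)
    {A B : Set X} (hA : MeasurableSet A) (_hB : MeasurableSet B) :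
    Continuous fun y => (μ (T y ⁻¹' A ∩ B)).toReal := by
  have h1 : ∀ y, (μ (T y ⁻¹' A ∩ B)).toReal
      = ∫ ω in B, A.indicator (fun _ => (1 : ℝ)) (T y ω) ∂μ := by
    intro y
    have h2 : (fun ω => A.indicator (fun _ => (1 : ℝ)) (T y ω))
        = (T y ⁻¹' A).indicator (fun _ => (1 : ℝ)) := by
      funext ω
      rfl
    rw [h2, integral_indicator_const _ ((hT y).measurable hA), smul_eq_mul, mul_one,
      measureReal_def, Measure.restrict_apply ((hT y).measurable hA)]
  simp only [h1]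
  apply continuous_of_uniform_approx_of_continuous
  intro u hu
  obtain ⟨ε, hε, hεu⟩ := Metric.mem_uniformity_dist.1 hu
  have hint : Integrable (A.indicator (fun _ => (1 : ℝ))) μ :=
    (integrable_const (1 : ℝ)).indicator hA
  obtain ⟨g, hg1, hg2⟩ := hint.exists_boundedContinuous_integral_sub_le (half_pos hε)
  refine ⟨fun y => ∫ ω in B, g (T y ω) ∂μ, ?_, fun y => hεu ?_⟩
  · refine continuous_of_dominated (bound := fun _ => ‖g‖) (fun y => ?_) (fun y => ?_) ?_ ?_
    · exact (g.continuous.measurable.comp (hT y).measurable).aestronglyMeasurable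
    · exact Eventually.of_forall fun ω => g.norm_coe_le_norm _
    · exact integrable_const _
    · exact Eventually.of_forall fun ω => g.continuous.comp (hc ω)
  · have hi1 : Integrable (fun ω => A.indicator (fun _ => (1 : ℝ)) (T y ω)) μ :=
      ((hT y).integrable_comp hint.aestronglyMeasurable).2 hint
    have hi2 : Integrable (fun ω => g (T y ω)) μ :=
      ((hT y).integrable_comp hg2.aestronglyMeasurable).2 hg2
    rw [Real.dist_eq, ← integral_sub hi1.restrict hi2.restrict]
    have h3 : |∫ ω in B, (A.indicator (fun _ => (1 : ℝ)) (T y ω) - g (T y ω)) ∂μ|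
        ≤ ∫ ω in B, ‖A.indicator (fun _ => (1 : ℝ)) (T y ω) - g (T y ω)‖ ∂μ := by
      rw [← Real.norm_eq_abs]
      exact norm_integral_le_integral_norm _
    have h4 : ∫ ω in B, ‖A.indicator (fun _ => (1 : ℝ)) (T y ω) - g (T y ω)‖ ∂μ
        ≤ ∫ ω, ‖A.indicator (fun _ => (1 : ℝ)) (T y ω) - g (T y ω)‖ ∂μ :=
      setIntegral_le_integral (hi1.sub hi2).norm (Eventually.of_forall fun _ => norm_nonneg _)
    have h5 : ∫ ω, ‖A.indicator (fun _ => (1 : ℝ)) (T y ω) - g (T y ω)‖ ∂μ
        = ∫ ω, ‖A.indicator (fun _ => (1 : ℝ)) ω - g ω‖ ∂μ := by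
      have h6 := integral_map (μ := μ) (φ := T y) (hT y).measurable.aemeasurable
        (f := fun ω => ‖A.indicator (fun _ => (1 : ℝ)) ω - g ω‖)
        (by rw [(hT y).map_eq]; exact (hint.sub hg2).norm.aestronglyMeasurable)
      rw [(hT y).map_eq] at h6
      exact h6.symm
    rw [h5] at h4
    linarith

end Pool.Agent.H48
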