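import Mathlib

/-!
# Isomorphisms of standard probability spaces
-/

set_option autoImplicit false

open MeasureTheory Filter Topology Set

namespace Pool.Agent.H48

open Classical in
/-- extending an a.e. injective measure preserving map to a measurable equivalence -/
theorem exists_equiv_ae {X Y : Type} [MeasurableSpace X] [StandardBorelSpace X]
    [MeasurableSpace Y] [StandardBorelSpace Y] {μ : Measure X} {ν : Measure Y}
    [IsProbabilityMeasure μ] {g : X → Y} (hg : MeasurePreserving g μ ν)
    {A : Set X} (hA : MeasurableSet A) (hA0 : μ Aᶜ = 0) (hinj : InjOn g A)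
    {N : Set Y} (hN : MeasurableSet N) (hN0 : ν N = 0) (hNc : ¬ N.Countable)
    {N' : Set X} (hN' : MeasurableSet N') (hN'0 : μ N' = 0) (hN'c : ¬ N'.Countable) :
    ∃ e : X ≃ᵐ Y, MeasurePreserving e μ ν ∧ (e : X → Y) =ᵐ[μ] g := by
  set A' : Set X := A \ (N' ∪ g ⁻¹' N) with hA'
  have hA'm : MeasurableSet A' := hA.diff (hN'.union (hg.measurable hN))
  have hA'0 : μ A'ᶜ = 0 := by
    have h1 : A'ᶜ ⊆ Aᶜ ∪ (N' ∪ g ⁻¹' N) := by
      intro x hx
      simp only [hA', mem_compl_iff, Set.mem_sdiff, not_and, not_not] at hx
      by_cases hxA : x ∈ A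
      · exact Or.inr (hx hxA)
      · exact Or.inl hxA
    refine measure_mono_null h1 ?_
    refine measure_union_null hA0 (measure_union_null hN'0 ?_)
    rw [hg.measure_preimage hN.nullMeasurableSet, hN0]
  let g' : A' → Y := fun a => g a
  have hg'm : Measurable g' := hg.measurable.comp measurable_subtype_coe
  have hg'i : Function.Injective g' := by
    intro a b hab
    exact Subtype.ext (hinj a.2.1 b.2.1 hab)
  have : StandardBorelSpace A' := hA'm.standardBorel
  have hemb : MeasurableEmbedding g' := hg'm.measurableEmbedding hg'i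
  have hR : MeasurableSet (range g') := hemb.measurableSet_range
  have : StandardBorelSpace (A'ᶜ : Set X) := hA'm.compl.standardBorel
  have : StandardBorelSpace ((range g')ᶜ : Set Y) := hR.compl.standardBorel
  have hc1 : ¬ Countable (A'ᶜ : Set X) := by
    intro hc
    apply hN'c
    have h2 : N' ⊆ A'ᶜ := fun x hx hxA => hxA.2 (Or.inl hx)
    exact Set.Countable.mono h2 hc
  have hc2 : ¬ Countable ((range g')ᶜ : Set Y) := by
    intro hc
    apply hNc
    have h2 : N ⊆ (range g')ᶜ := by
      rintro y hy ⟨a, rfl⟩
      exact a.2.2 (Or.inr hy)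
    exact Set.Countable.mono h2 hc
  let e2 : (A'ᶜ : Set X) ≃ᵐ ((range g')ᶜ : Set Y) :=
    PolishSpace.measurableEquivOfNotCountable hc1 hc2
  let e1 : A' ≃ᵐ range g' := hemb.equivRange
  let e : X ≃ᵐ Y := (MeasurableEquiv.sumCompl hA'm).symm.trans
    ((MeasurableEquiv.sumCongr e1 e2).trans (MeasurableEquiv.sumCompl hR))
  have he : ∀ x ∈ A', e x = g x := by
    intro x hx
    have h3 : (MeasurableEquiv.sumCompl hA'm).symm x = Sum.inl ⟨x, hx⟩ := by
      rw [MeasurableEquiv.symm_apply_eq]
      rfl
    change (MeasurableEquiv.sumCompl hR) ((MeasurableEquiv.sumCongr e1 e2)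
      ((MeasurableEquiv.sumCompl hA'm).symm x)) = g x
    rw [h3]
    change ((e1 ⟨x, hx⟩ : range g') : Y) = g x
    rw [show e1 ⟨x, hx⟩ = _ from hemb.equivRange_apply ⟨x, hx⟩]
  have hae : (e : X → Y) =ᵐ[μ] g := by
    have h4 : ∀ᵐ x ∂μ, x ∈ A' := by
      rw [ae_iff]
      exact hA'0
    filter_upwards [h4] with x hx using he x hx
  refine ⟨e, ⟨e.measurable, ?_⟩, hae⟩
  rw [Measure.map_congr hae, hg.map_eq]

lemma volume_cantorSet : volume cantorSet = 0 := by
  have h3 : ∀ S : Set ℝ, volume ((fun x : ℝ => 3 * x) ⁻¹' S) = ENNReal.ofReal (1 / 3) * volume S := by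
    intro S
    rw [Real.volume_preimage_mul_left (by norm_num)]
    congr 2
    rw [abs_of_pos (by norm_num)]; norm_num
  have h1 : volume cantorSet ≤ ENNReal.ofReal (1 / 3) * volume cantorSet
      + ENNReal.ofReal (1 / 3) * volume cantorSet := by
    have e1 : (fun x : ℝ => x / 3) '' cantorSet = (fun x : ℝ => 3 * x) ⁻¹' cantorSet := by
      ext x
      constructor
      · rintro ⟨y, hy, rfl⟩
        change 3 * (y / 3) ∈ cantorSet
        rwa [show 3 * (y / 3) = y by ring]
      · intro hx
        exact ⟨3 * x, hx, by simp⟩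
    have e2 : (fun x : ℝ => (2 + x) / 3) '' cantorSet
        = (fun x : ℝ => 3 * x) ⁻¹' ((fun x : ℝ => x + (-2)) ⁻¹' cantorSet) := by
      ext x
      constructor
      · rintro ⟨y, hy, rfl⟩
        change 3 * ((2 + y) / 3) + (-2) ∈ cantorSet
        rwa [show 3 * ((2 + y) / 3) + (-2) = y by ring]
      · intro hx
        exact ⟨3 * x + (-2), hx, by ring⟩
    calc volume cantorSet = volume ((fun x : ℝ => x / 3) '' cantorSet
          ∪ (fun x : ℝ => (2 + x) / 3) '' cantorSet) := by rw [← cantorSet_eq_union_halves]
      _ ≤ volume ((fun x : ℝ => x / 3) '' cantorSet)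
          + volume ((fun x : ℝ => (2 + x) / 3) '' cantorSet) := measure_union_le _ _
      _ = _ := by rw [e1, e2, h3, h3, measure_preimage_add_right]
  have hfin : volume cantorSet ≠ ⊤ :=
    (isCompact_cantorSet.measure_lt_top (μ := (volume : Measure ℝ))).ne
  have h4 := ENNReal.toReal_mono (by finiteness) h1
  rw [ENNReal.toReal_add (by finiteness) (by finiteness), ENNReal.toReal_mul,
    ENNReal.toReal_ofReal (by norm_num)] at h4
  have h5 : (volume cantorSet).toReal = 0 :=
    le_antisymm (by linarith) ENNReal.toReal_nonneg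
  exact (ENNReal.toReal_eq_zero_iff _).1 h5 |>.resolve_right hfin

lemma not_countable_cantorSet : ¬ cantorSet.Countable := by
  intro h
  have h1 : Countable (ℕ → Bool) := by
    have : Countable cantorSet := h
    exact cantorSetEquivNatToBool.symm.injective.countable
  have h2 : ¬ Countable (ℕ → Bool) := by
    intro hc
    obtain ⟨f, hf⟩ := exists_surjective_nat (ℕ → Bool)
    obtain ⟨n, hn⟩ := hf (fun n => !(f n n))
    have := congrFun hn n
    simp at this
  exact h2 h1

/-- the Cantor set in the unit interval -/
def cantI : Set unitInterval := (fun x : unitInterval => (x : ℝ)) ⁻¹' cantorSet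

lemma measurableSet_cantI : MeasurableSet cantI :=
  measurable_subtype_coe isClosed_cantorSet.measurableSet

lemma volume_cantI : volume cantI = 0 := by
  rw [unitInterval.volume_apply]
  refine measure_mono_null ?_ volume_cantorSet
  rintro _ ⟨x, hx, rfl⟩
  exact hx

lemma not_countable_cantI : ¬ cantI.Countable := by
  intro h
  apply not_countable_cantorSet
  have h1 : cantorSet = (fun x : unitInterval => (x : ℝ)) '' cantI := by
    ext x
    constructor
    · intro hx
      exact ⟨⟨x, cantorSet_subset_unitInterval hx⟩, hx, rfl⟩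
    · rintro ⟨y, hy, rfl⟩
      exact hy
  rw [h1]
  exact h.image _

/-- the distribution function -/
noncomputable def cdfI (ν : Measure unitInterval) [IsProbabilityMeasure ν] (t : unitInterval) :
    unitInterval :=
  ⟨(ν (Iic t)).toReal, ENNReal.toReal_nonneg, by
    have h := ENNReal.toReal_mono ENNReal.one_ne_top (prob_le_one (μ := ν) (s := Iic t))
    simpa using h⟩

lemma cdfI_mono (ν : Measure unitInterval) [IsProbabilityMeasure ν] : Monotone (cdfI ν) := by
  intro s t hst
  change (ν (Iic s)).toReal ≤ (ν (Iic t)).toReal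
  exact ENNReal.toReal_mono (measure_ne_top _ _) (measure_mono (Iic_subset_Iic.2 hst))

lemma cdfI_continuous (ν : Measure unitInterval) [IsProbabilityMeasure ν]
    (h0 : ∀ t, ν {t} = 0) : Continuous (cdfI ν) := by
  set ν' : Measure ℝ := ν.map (fun t : unitInterval => (t : ℝ)) with hν'
  have hm : Measurable (fun t : unitInterval => (t : ℝ)) := measurable_subtype_coe
  have : IsProbabilityMeasure ν' := Measure.isProbabilityMeasure_map hm.aemeasurable
  have h1 : ∀ t : unitInterval, ((cdfI ν t : unitInterval) : ℝ) = ProbabilityTheory.cdf ν' (t : ℝ) := by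
    intro t
    rw [ProbabilityTheory.cdf_eq_real, measureReal_def, hν', Measure.map_apply hm measurableSet_Iic]
    rfl
  have h2 : ∀ x : ℝ, ν' {x} = 0 := by
    intro x
    rw [hν', Measure.map_apply hm (measurableSet_singleton x)]
    by_cases hx : x ∈ unitInterval
    · have : (fun t : unitInterval => (t : ℝ)) ⁻¹' {x} = {⟨x, hx⟩} := by
        ext t
        simp [Subtype.ext_iff]
      rw [this]; exact h0 _
    · have : (fun t : unitInterval => (t : ℝ)) ⁻¹' {x} = ∅ := by
        ext t
        simp only [mem_preimage, mem_singleton_iff, mem_empty_iff_false, iff_false]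
        rintro rfl
        exact hx t.2
      rw [this]; simp
  have h3 : Continuous (ProbabilityTheory.cdf ν' : ℝ → ℝ) := by
    rw [continuous_iff_continuousAt]
    intro x
    have hmono := (ProbabilityTheory.cdf ν').mono
    rw [hmono.continuousAt_iff_leftLim_eq_rightLim, StieltjesFunction.rightLim_eq]
    have h4 := (ProbabilityTheory.cdf ν').measure_singleton x
    rw [ProbabilityTheory.measure_cdf, h2, eq_comm, ENNReal.ofReal_eq_zero] at h4
    exact le_antisymm (hmono.leftLim_le le_rfl) (by linarith)
  refine Continuous.subtype_mk (f := fun t => (ν (Iic t)).toReal) ?_ _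
  have h5 : (fun t : unitInterval => (ν (Iic t)).toReal)
      = fun t : unitInterval => ProbabilityTheory.cdf ν' (t : ℝ) := by
    funext t; exact h1 t
  rw [h5]
  exact h3.comp continuous_subtype_val

lemma cdfI_surjective (ν : Measure unitInterval) [IsProbabilityMeasure ν]
    (h0 : ∀ t, ν {t} = 0) : Function.Surjective (cdfI ν) := by
  have h1 : cdfI ν 0 = 0 := by
    apply Subtype.ext
    change (ν (Iic 0)).toReal = 0
    have : Iic (0 : unitInterval) = {0} := by
      ext t; simp
    rw [this, h0]; simp
  have h2 : cdfI ν 1 = 1 := by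
    apply Subtype.ext
    change (ν (Iic 1)).toReal = 1
    have : Iic (1 : unitInterval) = univ := by
      ext t; simp only [mem_Iic, mem_univ, iff_true]; exact unitInterval.le_one'
    rw [this, measure_univ]; simp
  intro u
  have h3 := intermediate_value_univ (0 : unitInterval) 1 (cdfI_continuous ν h0)
  rw [h1, h2] at h3
  exact h3 ⟨unitInterval.nonneg', unitInterval.le_one'⟩

lemma cdfI_measurePreserving (ν : Measure unitInterval) [IsProbabilityMeasure ν]
    (h0 : ∀ t, ν {t} = 0) : MeasurePreserving (cdfI ν) ν volume := by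
  have hc := cdfI_continuous ν h0
  refine ⟨hc.measurable, ?_⟩
  have : IsProbabilityMeasure (ν.map (cdfI ν)) := Measure.isProbabilityMeasure_map hc.aemeasurable
  refine Measure.ext_of_Iic _ _ fun u => ?_
  rw [Measure.map_apply hc.measurable measurableSet_Iic, unitInterval.volume_Iic]
  set S : Set unitInterval := cdfI ν ⁻¹' Iic u with hS
  obtain ⟨t, ht⟩ := cdfI_surjective ν h0 u
  have hcl : IsClosed S := isClosed_Iic.preimage hc
  obtain ⟨m, hm⟩ := hcl.isCompact.exists_isGreatest ⟨t, le_of_eq ht⟩
  have h1 : S = Iic m := by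
    ext s
    constructor
    · intro hs; exact hm.2 hs
    · intro hs; exact le_trans (cdfI_mono ν hs) hm.1
  have h2 : cdfI ν m = u := by
    refine le_antisymm hm.1 ?_
    rw [← ht]
    exact cdfI_mono ν (hm.2 (le_of_eq ht))
  rw [h1, ← h2]
  change ν (Iic m) = ENNReal.ofReal (ν (Iic m)).toReal
  rw [ENNReal.ofReal_toReal (measure_ne_top _ _)]

/-- every nonatomic standard probability space is isomorphic to the unit interval -/
theorem exists_equiv_unitInterval {X : Type} [MeasurableSpace X] [StandardBorelSpace X]
    {μ : Measure X} [IsProbabilityMeasure μ] (h0 : ∀ x, μ {x} = 0) :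
    ∃ e : X ≃ᵐ unitInterval, MeasurePreserving e μ volume := by
  have hX : ¬ Countable X := by
    intro hc
    have h1 : μ univ = 0 := by
      rw [← biUnion_of_singleton (univ : Set X)]
      exact (measure_biUnion_null_iff (to_countable _)).2 fun x _ => h0 x
    rw [measure_univ] at h1
    exact one_ne_zero h1
  have hI : ¬ Countable unitInterval := by
    intro hc
    exact not_countable_cantI (to_countable _)
  let e0 : X ≃ᵐ unitInterval := PolishSpace.measurableEquivOfNotCountable hX hI
  set ν : Measure unitInterval := μ.map e0 with hν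
  have : IsProbabilityMeasure ν := Measure.isProbabilityMeasure_map e0.measurable.aemeasurable
  have hν0 : ∀ t, ν {t} = 0 := by
    intro t
    rw [hν, e0.map_apply]
    have : e0 ⁻¹' {t} = {e0.symm t} := by
      ext x
      simp only [mem_preimage, mem_singleton_iff]
      constructor
      · rintro rfl; simp
      · rintro rfl; simp
    rw [this]; exact h0 _
  have hF := cdfI_measurePreserving ν hν0
  have hcount := (cdfI_mono ν).countable_setOfPred_two_preimages
  set C : Set unitInterval := {c | ∃ x y, x < y ∧ cdfI ν x = c ∧ cdfI ν y = c} with hC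
  have hCm : MeasurableSet C := hcount.measurableSet
  have hC0 : (volume : Measure unitInterval) C = 0 := hcount.measure_zero _
  obtain ⟨e, he, -⟩ := exists_equiv_ae hF (A := (cdfI ν ⁻¹' C)ᶜ)
    (hF.measurable hCm).compl
    (by rw [compl_compl, hF.measure_preimage hCm.nullMeasurableSet, hC0])
    (by
      intro a ha b hb hab
      by_contra hne
      rcases lt_or_gt_of_ne hne with h | h
      · exact ha ⟨a, b, h, rfl, hab.symm⟩
      · exact ha ⟨b, a, h, hab.symm, rfl⟩)
    measurableSet_cantI volume_cantI not_countable_cantI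
    (N' := cdfI ν ⁻¹' cantI) (hF.measurable measurableSet_cantI)
    (by rw [hF.measure_preimage measurableSet_cantI.nullMeasurableSet, volume_cantI])
    (by
      intro h
      apply not_countable_cantI
      rw [← image_preimage_eq cantI (cdfI_surjective ν hν0)]
      exact h.image _)
  refine ⟨e0.trans e, ?_⟩
  have h1 : MeasurePreserving e0 μ ν := ⟨e0.measurable, rfl⟩
  exact he.comp h1

end Pool.Agent.H48
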