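import Pool.Agent.H48.Model
import Pool.Agent.H48.Iso

/-!
# Measures, measure preserving transformations, continuity
-/

set_option autoImplicit false

open MeasureTheory Filter Topology

namespace Pool.Agent.H48

/-- Haar probability on the base -/
noncomputable def muZ : Measure (ZZ (List ℕ)) := Measure.addHaarMeasure ⊤

/-- Haar probability on the fibre -/
noncomputable def muK : Measure (KK IX) := Measure.addHaarMeasure ⊤

instance : muZ.IsAddHaarMeasure := by unfold muZ; infer_instance

instance : muK.IsAddHaarMeasure := by unfold muK; infer_instance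

instance : IsProbabilityMeasure muZ := ⟨Measure.addHaarMeasure_self (K₀ := ⊤)⟩

instance : IsProbabilityMeasure muK := ⟨Measure.addHaarMeasure_self (K₀ := ⊤)⟩

/-- the phase space -/
abbrev XX : Type := ZZ (List ℕ) × KK IX

/-- the measure -/
noncomputable def muX : Measure XX := muZ.prod muK

instance : IsProbabilityMeasure muX := by unfold muX; infer_instance

lemma muZ_singleton (z : ZZ (List ℕ)) : muZ {z} = 0 := by
  by_contra h0
  have h1 : ∀ z', muZ {z'} = muZ {z} := by
    intro z'
    have h2 := measure_preimage_add_right muZ (z - z') {z}
    have h3 : (fun w : ZZ (List ℕ) => w + (z - z')) ⁻¹' {z} = {z'} := by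
      ext w
      simp only [Set.mem_preimage, Set.mem_singleton_iff]
      constructor
      · intro h
        have : w = w + (z - z') - (z - z') := by abel
        rw [this, h]; abel
      · rintro rfl; abel
    rw [h3] at h2
    exact h2
  have hinf : (Set.univ : Set (ZZ (List ℕ))).Infinite := Set.infinite_univ
  have h4 := hinf.meas_eq_top (μ := muZ) ⟨muZ {z}, h0, fun x _ => (h1 x).ge⟩
  rw [measure_univ] at h4
  exact ENNReal.one_ne_top h4

lemma muX_singleton (ω : XX) : muX {ω} = 0 := by
  unfold muX
  have : ({ω} : Set XX) = {ω.1} ×ˢ {ω.2} := by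
    rw [Set.singleton_prod_singleton]
  rw [this, Measure.prod_prod, muZ_singleton, zero_mul]

variable (R : List ℕ → Prop)

lemma continuous_cd (i : IX) : Continuous (cd R i) := by
  by_cases h : vld R i
  · have h1 : cd R i = fun z => (2 * i.1, trc i.1 (z + lft i.2)) := by
      funext z; exact cd_valid h z
    rw [h1]
    refine continuous_const.prodMk (continuous_pi fun s => ?_)
    unfold trc
    by_cases hs : s.length ≤ i.1
    · simp only [if_pos hs]
      exact (continuous_apply s).add continuous_const
    · simp only [if_neg hs]
      exact continuous_const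
  · have h1 : cd R i = fun z => (2 * enc i + 1, 0) := by
      funext z; exact cd_invalid h z
    rw [h1]
    exact continuous_const

lemma continuous_Th : Continuous (Th R) := by
  unfold Th
  exact (continuous_pi fun i => continuous_kap.comp (continuous_cd R i)).prodMk continuous_const

lemma measurable_Th : Measurable (Th R) := (continuous_Th R).measurable

lemma measurable_skew {Θ : ZZ (List ℕ) → KK IX} (hΘ : Measurable Θ) : Measurable (skew Θ) :=
  measurable_fst.prodMk (measurable_snd.add (hΘ.comp measurable_fst))

lemma skew_mp : MeasurePreserving (skew (Th R)) muX muX := by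
  unfold muX
  refine (MeasurePreserving.id muZ).skew_product (g := fun z k => k + Th R z) ?_ ?_
  · exact measurable_snd.add ((measurable_Th R).comp measurable_fst)
  · refine Eventually.of_forall fun z => ?_
    exact (measurePreserving_add_right muK (Th R z)).map_eq

/-- the skew translation as a measurable equivalence -/
noncomputable def skewE : XX ≃ᵐ XX where
  toFun := skew (Th R)
  invFun := fun ω => (ω.1, ω.2 - Th R ω.1)
  left_inv := by
    intro ω
    refine Prod.ext rfl ?_
    change ω.2 + Th R ω.1 - Th R ω.1 = ω.2
    abel
  right_inv := by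
    intro ω
    refine Prod.ext rfl ?_
    change ω.2 - Th R ω.1 + Th R ω.1 = ω.2
    abel
  measurable_toFun := measurable_skew (measurable_Th R)
  measurable_invFun := measurable_fst.prodMk
    (measurable_snd.sub ((measurable_Th R).comp measurable_fst))

/-- permutation of coordinates -/
def permK (σ : IX → IX) : KK IX →+ KK IX where
  toFun := fun k => (fun i => k.1 (σ i), k.2)
  map_zero' := rfl
  map_add' := fun _ _ => rfl

lemma permK_mp {σ : IX → IX} (hσ : ∀ i, σ (σ i) = i) : MeasurePreserving (permK σ) muK muK := by
  refine AddMonoidHom.measurePreserving ?_ ?_ rfl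
  · exact (continuous_pi fun i => (continuous_apply (σ i)).comp continuous_fst).prodMk continuous_snd
  · intro k
    refine ⟨(fun i => k.1 (σ i), k.2), ?_⟩
    refine Prod.ext ?_ rfl
    funext i
    change k.1 (σ (σ i)) = k.1 i
    rw [hσ]

/-- the translation part of the root -/
noncomputable def rtc (x : ℕ → ℕ) (z : ZZ (List ℕ)) : KK IX :=
  (fun i => if z [] = 0 then (Th R z).1 (tau R x i) else 0, z [])

lemma measurable_rtc (x : ℕ → ℕ) : Measurable (rtc R x) := by
  unfold rtc
  refine Measurable.prodMk (measurable_pi_lambda _ fun i => ?_) (measurable_pi_apply [])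
  refine Measurable.ite ?_ ?_ measurable_const
  · exact measurable_pi_apply [] (measurableSet_singleton 0)
  · exact (measurable_pi_apply _).comp (measurable_fst.comp (measurable_Th R))

lemma rt_eq (x : ℕ → ℕ) (ω : XX) :
    rt R x ω = (ω.1 + hb x, permK (tau R x) ω.2 + rtc R x ω.1) := rfl

variable {R}

lemma rt_mp {x : ℕ → ℕ} (hx : ∀ n, R (sgm x n)) : MeasurePreserving (rt R x) muX muX := by
  unfold muX
  have hp := permK_mp (σ := tau R x) (tau_tau hx)
  refine (measurePreserving_add_right muZ (hb x)).skew_product
    (g := fun z k => permK (tau R x) k + rtc R x z) ?_ ?_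
  · exact (hp.measurable.comp measurable_snd).add ((measurable_rtc R x).comp measurable_fst)
  · refine Eventually.of_forall fun z => ?_
    exact ((measurePreserving_add_right muK (rtc R x z)).comp hp).map_eq

/-- the root as a measurable equivalence -/
noncomputable def rtE {x : ℕ → ℕ} (hx : ∀ n, R (sgm x n)) : XX ≃ᵐ XX where
  toFun := rt R x
  invFun := fun ω => rt R x ((skewE R).symm ω)
  left_inv := by
    intro ω
    have h1 : (skewE R).symm (rt R x ω) = rt R x ((skewE R).symm ω) := by
      rw [MeasurableEquiv.symm_apply_eq]
      change rt R x ω = skew (Th R) (rt R x ((skewE R).symm ω))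
      rw [← rt_rt hx, rt_rt hx ((skewE R).symm ω)]
      change rt R x ω = rt R x ((skewE R) ((skewE R).symm ω))
      rw [MeasurableEquiv.apply_symm_apply]
    change rt R x ((skewE R).symm (rt R x ω)) = ω
    rw [h1, rt_rt hx]
    exact (skewE R).apply_symm_apply ω
  right_inv := by
    intro ω
    change rt R x (rt R x ((skewE R).symm ω)) = ω
    rw [rt_rt hx]
    exact (skewE R).apply_symm_apply ω
  measurable_toFun := (rt_mp hx).measurable
  measurable_invFun := (rt_mp hx).measurable.comp (skewE R).symm.measurable

end Pool.Agent.H48
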