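import Mathlib

/-!
# Characters of `(I → ℝ/ℤ) × ZMod 2` and fibrewise eigenfunctions
-/

set_option autoImplicit false

open MeasureTheory Filter Topology
open scoped BoundedContinuousFunction

namespace Pool.Agent.H48

/-- the compact group `(I → ℝ/ℤ) × ZMod 2` -/
abbrev KK (I : Type) : Type := (I → UnitAddCircle) × ZMod 2

/-- the element `1/2` of `ℝ/ℤ` -/
noncomputable def half : UnitAddCircle := ((1 / 2 : ℝ) : UnitAddCircle)

lemma half_add_half : half + half = 0 := by
  unfold half
  rw [← AddCircle.coe_add]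
  norm_num

lemma half_ne_zero : half ≠ 0 := by
  unfold half
  intro h
  rw [AddCircle.coe_eq_zero_iff] at h
  obtain ⟨n, hn⟩ := h
  simp only [zsmul_eq_mul, mul_one] at hn
  have h2 : (2 * n : ℝ) = 1 := by linarith
  have h3 : (2 * n : ℤ) = 1 := by exact_mod_cast h2
  omega

/-- the embedding `ZMod 2 → ℝ/ℤ` -/
noncomputable def iot : ZMod 2 →+ UnitAddCircle :=
  ZMod.lift 2 ⟨zmultiplesHom UnitAddCircle half, by
    simp only [zmultiplesHom_apply]
    change (2 : ℤ) • half = 0
    rw [two_zsmul]; exact half_add_half⟩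

lemma iot_one : iot 1 = half := by
  have h := ZMod.lift_coe 2 (⟨zmultiplesHom UnitAddCircle half, by
    simp only [zmultiplesHom_apply]
    change (2 : ℤ) • half = 0
    rw [two_zsmul]; exact half_add_half⟩ : {f : ℤ →+ UnitAddCircle // f ((2 : ℕ) : ℤ) = 0}) 1
  have h2 : ((1 : ℤ) : ZMod 2) = 1 := by norm_num
  rw [h2] at h
  refine h.trans ?_
  change (1 : ℤ) • half = half
  exact one_zsmul _

variable {I : Type}

/-- coordinate projections as homomorphisms -/
def prI (i : I) : KK I →+ UnitAddCircle :=
  (Pi.evalAddMonoidHom (fun _ : I => UnitAddCircle) i).comp (AddMonoidHom.fst _ _)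

@[simp] lemma prI_apply (i : I) (k : KK I) : prI i k = k.1 i := rfl

/-- the homomorphism given by the second coordinate -/
noncomputable def prS : KK I →+ UnitAddCircle := iot.comp (AddMonoidHom.snd _ _)

@[simp] lemma prS_apply (k : KK I) : prS k = iot k.2 := rfl

/-- the characters (written additively) -/
noncomputable def ell : (I →₀ ℤ) × ℤ →+ (KK I →+ UnitAddCircle) :=
  (Finsupp.liftAddHom (fun i => zmultiplesHom (KK I →+ UnitAddCircle) (prI i))).comp
    (AddMonoidHom.fst _ _) + (zmultiplesHom (KK I →+ UnitAddCircle) prS).comp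
    (AddMonoidHom.snd _ _)

lemma ell_apply (l : (I →₀ ℤ) × ℤ) (k : KK I) :
    ell l k = (l.1.sum fun i n => n • k.1 i) + l.2 • iot k.2 := by
  simp [ell, Finsupp.sum, AddMonoidHom.finsetSum_apply]

lemma continuous_ell (l : (I →₀ ℤ) × ℤ) : Continuous (ell l : KK I → UnitAddCircle) := by
  have : (ell l : KK I → UnitAddCircle)
      = fun k => (l.1.sum fun i n => n • k.1 i) + l.2 • iot k.2 := by
    funext k; exact ell_apply l k
  rw [this]
  unfold Finsupp.sum
  refine Continuous.add ?_ ?_
  · refine continuous_finsetSum _ fun i _ => ?_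
    exact Continuous.zsmul ((continuous_apply i).comp continuous_fst) _
  · exact Continuous.zsmul (continuous_of_discreteTopology.comp continuous_snd) _

/-- the characters (complex valued) -/
noncomputable def EE (l : (I →₀ ℤ) × ℤ) : KK I →ᵇ ℂ :=
  BoundedContinuousFunction.mkOfCompact
    ⟨fun k => ((AddCircle.toCircle (ell l k) : Circle) : ℂ), by
      have h1 : Continuous (fun k : KK I => AddCircle.toCircle (ell l k)) :=
        AddCircle.continuous_toCircle.comp (continuous_ell l)
      exact continuous_subtype_val.comp h1⟩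

lemma EE_apply (l : (I →₀ ℤ) × ℤ) (k : KK I) :
    EE l k = ((AddCircle.toCircle (ell l k) : Circle) : ℂ) := rfl

lemma EE_add_left (l l' : (I →₀ ℤ) × ℤ) : EE (l + l') = EE l * EE l' := by
  ext k
  rw [BoundedContinuousFunction.mul_apply, EE_apply, EE_apply, EE_apply, map_add,
    AddMonoidHom.add_apply, AddCircle.toCircle_add, Circle.coe_mul]

lemma EE_zero : EE (0 : (I →₀ ℤ) × ℤ) = 1 := by
  ext k
  rw [EE_apply, map_zero, AddMonoidHom.zero_apply, AddCircle.toCircle_zero]
  simp

lemma EE_neg (l : (I →₀ ℤ) × ℤ) : EE (-l) = star (EE l) := by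
  ext k
  rw [BoundedContinuousFunction.star_apply, EE_apply, EE_apply, map_neg, AddMonoidHom.neg_apply,
    AddCircle.toCircle_neg, Circle.coe_inv_eq_conj]
  rfl

lemma EE_add_right (l : (I →₀ ℤ) × ℤ) (k k' : KK I) : EE l (k + k') = EE l k * EE l k' := by
  rw [EE_apply, EE_apply, EE_apply, map_add, AddCircle.toCircle_add, Circle.coe_mul]

lemma norm_EE (l : (I →₀ ℤ) × ℤ) (k : KK I) : ‖EE l k‖ = 1 := by
  rw [EE_apply]; exact Circle.norm_coe _

/-- the star algebra generated by the characters -/
noncomputable def charAlg (I : Type) : StarSubalgebra ℂ (KK I →ᵇ ℂ) :=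
  StarAlgebra.adjoin ℂ (Set.range (EE (I := I)))

lemma mem_charAlg_iff (g : KK I →ᵇ ℂ) :
    g ∈ charAlg I ↔ g ∈ Submodule.span ℂ (Set.range (EE (I := I))) := by
  have h1 : star (Set.range (EE (I := I))) = Set.range (EE (I := I)) := by
    ext g
    rw [Set.mem_star]
    constructor
    · rintro ⟨l, hl⟩
      refine ⟨-l, ?_⟩
      rw [EE_neg, hl, star_star]
    · rintro ⟨l, hl⟩
      exact ⟨-l, by rw [EE_neg, hl]⟩
  have h2 : g ∈ charAlg I ↔ g ∈ Algebra.adjoin ℂ (Set.range (EE (I := I))) := by
    have : (charAlg I).toSubalgebra = Algebra.adjoin ℂ (Set.range (EE (I := I))) := by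
      unfold charAlg
      rw [StarAlgebra.adjoin_toSubalgebra, h1, Set.union_self]
    rw [← this]; rfl
  rw [h2, ← Subalgebra.mem_toSubmodule, Algebra.adjoin_eq_span]
  have h3 : (Submonoid.closure (Set.range (EE (I := I))) : Set (KK I →ᵇ ℂ))
      = Set.range (EE (I := I)) := by
    let M : Submonoid (KK I →ᵇ ℂ) :=
      { carrier := Set.range (EE (I := I))
        mul_mem' := by
          rintro _ _ ⟨l, rfl⟩ ⟨l', rfl⟩
          exact ⟨l + l', EE_add_left l l'⟩
        one_mem' := ⟨0, EE_zero⟩ }
    apply Set.Subset.antisymm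
    · have : Submonoid.closure (Set.range (EE (I := I))) ≤ M :=
        Submonoid.closure_le.2 (Set.Subset.refl _)
      exact this
    · exact Submonoid.subset_closure
  rw [h3]

lemma charAlg_separates :
    ((charAlg I).map (BoundedContinuousFunction.toContinuousMapStarₐ ℂ)).SeparatesPoints := by
  classical
  intro k k' hne
  have hsep : ∃ l : (I →₀ ℤ) × ℤ, EE l k ≠ EE l k' := by
    by_cases h1 : k.1 = k'.1
    · have h2 : k.2 ≠ k'.2 := fun h2 => hne (Prod.ext h1 h2)
      refine ⟨(0, 1), fun h => h2 ?_⟩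
      rw [EE_apply, EE_apply, ell_apply, ell_apply] at h
      have h3 := AddCircle.injective_toCircle (one_ne_zero) (Circle.ext h)
      simp only [Finsupp.sum_zero_index, one_zsmul, zero_add] at h3
      have hinj : Function.Injective iot := by
        rw [injective_iff_map_eq_zero]
        intro a ha
        fin_cases a
        · rfl
        · exfalso
          apply half_ne_zero
          rw [← iot_one]
          exact ha
      exact hinj h3
    · obtain ⟨i, hi⟩ := Function.ne_iff.1 h1
      refine ⟨(Finsupp.single i 1, 0), fun h => hi ?_⟩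
      rw [EE_apply, EE_apply, ell_apply, ell_apply] at h
      have h3 := AddCircle.injective_toCircle (one_ne_zero) (Circle.ext h)
      simpa using h3
  obtain ⟨l, hl⟩ := hsep
  refine ⟨_, ⟨BoundedContinuousFunction.toContinuousMapStarₐ ℂ (EE l), ?_, rfl⟩, hl⟩
  exact ⟨EE l, (mem_charAlg_iff _).2 (Submodule.subset_span ⟨l, rfl⟩), rfl⟩

section

variable [Countable I]



instance : PolishSpace (KK I) := by unfold KK; infer_instance

instance : BorelSpace (KK I) := by unfold KK; infer_instance

omit [Countable I] in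
lemma integral_posPart_eq {μ : Measure (KK I)} [IsFiniteMeasure μ] {F : KK I → ℝ}
    (hF : Measurable F) (g : KK I → ℂ) :
    ∫ x, g x ∂(μ.withDensity fun x => ENNReal.ofReal (F x)) = ∫ x, ((max (F x) 0 : ℝ) : ℂ) * g x ∂μ := by
  rw [integral_withDensity_eq_integral_toReal_smul (hF.ennreal_ofReal)
    (Eventually.of_forall fun x => ENNReal.ofReal_lt_top)]
  refine integral_congr_ae (Eventually.of_forall fun x => ?_)
  simp only [ENNReal.toReal_ofReal']
  rw [Complex.real_smul]

lemma fc_real {μ : Measure (KK I)} [IsFiniteMeasure μ] {F : KK I → ℝ}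
    (hF : Measurable F) {C : ℝ} (hb : ∀ x, |F x| ≤ C)
    (h : ∀ l, ∫ k, (F k : ℂ) * EE l k ∂μ = 0) : F =ᵐ[μ] 0 := by
  have hbp : ∀ (F' : KK I → ℝ), Measurable F' → (∀ x, |F' x| ≤ C) →
      IsFiniteMeasure (μ.withDensity fun x => ENNReal.ofReal (F' x)) := by
    intro F' hF' hb'
    refine isFiniteMeasure_withDensity (ne_of_lt ?_)
    calc ∫⁻ x, ENNReal.ofReal (F' x) ∂μ ≤ ∫⁻ _, ENNReal.ofReal C ∂μ :=
          lintegral_mono fun x => ENNReal.ofReal_le_ofReal ((le_abs_self _).trans (hb' x))
      _ < ⊤ := by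
          rw [lintegral_const]
          exact ENNReal.mul_lt_top ENNReal.ofReal_lt_top (measure_lt_top _ _)
  have hn : Measurable fun x => -F x := hF.neg
  have := hbp F hF hb
  have := hbp (fun x => -F x) hn (by simpa using hb)
  have hint : ∀ (F' : KK I → ℝ), Measurable F' → (∀ x, |F' x| ≤ C) → ∀ g : KK I →ᵇ ℂ,
      Integrable (fun x => ((F' x : ℝ) : ℂ) * g x) μ := by
    intro F' hF' hb' g
    refine Integrable.of_bound (C := C * ‖g‖) ?_ (Eventually.of_forall fun x => ?_)
    · exact ((Complex.measurable_ofReal.comp hF').mul g.continuous.measurable).aestronglyMeasurable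
    · rw [norm_mul, Complex.norm_real, Real.norm_eq_abs]
      have h1 := g.norm_coe_le_norm x
      exact mul_le_mul (hb' x) h1 (norm_nonneg _) ((abs_nonneg _).trans (hb' x))
  have hmax : ∀ (F' : KK I → ℝ), (∀ x, |F' x| ≤ C) → ∀ x, |max (F' x) 0| ≤ C := by
    intro F' hb' x
    rw [abs_of_nonneg (le_max_right _ _)]
    exact max_le ((le_abs_self _).trans (hb' x)) ((abs_nonneg _).trans (hb' x))
  have key : (μ.withDensity fun x => ENNReal.ofReal (F x))
      = (μ.withDensity fun x => ENNReal.ofReal (-F x)) := by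
    refine ext_of_forall_mem_subalgebra_integral_eq_of_polish (𝕜 := ℂ) (A := charAlg I)
      charAlg_separates ?_
    intro g hg
    rw [integral_posPart_eq hF, integral_posPart_eq hn]
    rw [← sub_eq_zero, ← integral_sub (hint _ (hF.max measurable_const) (hmax F hb) g)
      (hint _ (hn.max measurable_const) (hmax _ (by simpa using hb)) g)]
    have h2 : ∀ x, ((max (F x) 0 : ℝ) : ℂ) * g x - ((max (-F x) 0 : ℝ) : ℂ) * g x
        = (F x : ℂ) * g x := by
      intro x
      rw [← sub_mul]
      congr 1
      rw [← Complex.ofReal_sub]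
      congr 1
      rcases le_total 0 (F x) with h0 | h0
      · rw [max_eq_left h0, max_eq_right (by linarith)]; ring
      · rw [max_eq_right h0, max_eq_left (by linarith)]; ring
    simp only [h2]
    clear h2
    rw [mem_charAlg_iff] at hg
    induction hg using Submodule.span_induction with
    | mem x hx =>
      obtain ⟨l, rfl⟩ := hx
      exact h l
    | zero => simp
    | add x y hx hy ihx ihy =>
      have : ∀ k, (F k : ℂ) * (x + y) k = (F k : ℂ) * x k + (F k : ℂ) * y k := by
        intro k; rw [BoundedContinuousFunction.add_apply]; ring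
      simp only [this]
      rw [integral_add (hint F hF hb x) (hint F hF hb y), ihx, ihy, add_zero]
    | smul a x hx ihx =>
      have : ∀ k, (F k : ℂ) * (a • x) k = a * ((F k : ℂ) * x k) := by
        intro k; rw [BoundedContinuousFunction.smul_apply, smul_eq_mul]; ring
      simp only [this]
      rw [integral_const_mul, ihx, mul_zero]
  have h3 := (withDensity_eq_iff hF.ennreal_ofReal.aemeasurable hn.ennreal_ofReal.aemeasurable
    (by
      have h4 := (hbp F hF hb).measure_univ_lt_top
      rw [withDensity_apply _ MeasurableSet.univ, Measure.restrict_univ] at h4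
      exact h4.ne)).1 key
  filter_upwards [h3] with x hx
  simp only [Pi.zero_apply]
  rcases lt_trichotomy (F x) 0 with h0 | h0 | h0
  · exfalso
    rw [ENNReal.ofReal_of_nonpos h0.le, eq_comm, ENNReal.ofReal_eq_zero] at hx
    linarith
  · exact h0
  · exfalso
    rw [ENNReal.ofReal_of_nonpos (p := -F x) (by linarith), ENNReal.ofReal_eq_zero] at hx
    linarith

lemma integrable_bdd_mul {μ : Measure (KK I)} [IsFiniteMeasure μ] {G : KK I → ℂ}
    (hG : Measurable G) {C : ℝ} (hb : ∀ x, ‖G x‖ ≤ C) (g : KK I →ᵇ ℂ) :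
    Integrable (fun x => G x * g x) μ := by
  refine Integrable.of_bound (C := C * ‖g‖) ?_ (Eventually.of_forall fun x => ?_)
  · exact (hG.mul g.continuous.measurable).aestronglyMeasurable
  · rw [norm_mul]
    exact mul_le_mul (hb x) (g.norm_coe_le_norm x) (norm_nonneg _) ((norm_nonneg _).trans (hb x))

lemma fc_complex {μ : Measure (KK I)} [IsFiniteMeasure μ] {G : KK I → ℂ}
    (hG : Measurable G) {C : ℝ} (hb : ∀ x, ‖G x‖ ≤ C)
    (h : ∀ l, ∫ k, G k * EE l k ∂μ = 0) : G =ᵐ[μ] 0 := by
  have hconj : ∀ l, ∫ k, (starRingEnd ℂ) (G k) * EE l k ∂μ = 0 := by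
    intro l
    have h1 := h (-l)
    have h2 := congrArg (starRingEnd ℂ) h1
    rw [← integral_conj, map_zero] at h2
    rw [← h2]
    refine integral_congr_ae (Eventually.of_forall fun k => ?_)
    simp only [map_mul]
    rw [EE_neg, BoundedContinuousFunction.star_apply]
    simp
  have hcb : ∀ x, ‖(starRingEnd ℂ) (G x)‖ ≤ C := fun x => by rw [RCLike.norm_conj]; exact hb x
  have hcm : Measurable fun x => (starRingEnd ℂ) (G x) :=
    Complex.continuous_conj.measurable.comp hG
  have hre : (fun x => (G x).re) =ᵐ[μ] 0 := by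
    refine fc_real (Complex.measurable_re.comp hG) (C := C)
      (fun x => (Complex.abs_re_le_norm _).trans (hb x)) fun l => ?_
    have h3 : ∀ k, (((G k).re : ℝ) : ℂ) * EE l k
        = (1/2 : ℂ) * (G k * EE l k) + (1/2 : ℂ) * ((starRingEnd ℂ) (G k) * EE l k) := by
      intro k
      rw [Complex.re_eq_add_conj]; ring
    simp only [h3]
    rw [integral_add ((integrable_bdd_mul hG hb _).const_mul _)
      ((integrable_bdd_mul hcm hcb _).const_mul _), integral_const_mul, integral_const_mul, h, hconj]
    simp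
  have him : (fun x => (G x).im) =ᵐ[μ] 0 := by
    refine fc_real (Complex.measurable_im.comp hG) (C := C)
      (fun x => (Complex.abs_im_le_norm _).trans (hb x)) fun l => ?_
    have h3 : ∀ k, (((G k).im : ℝ) : ℂ) * EE l k
        = (1/(2 * Complex.I) : ℂ) * (G k * EE l k)
          + (-1/(2 * Complex.I) : ℂ) * ((starRingEnd ℂ) (G k) * EE l k) := by
      intro k
      rw [Complex.im_eq_sub_conj]; ring
    simp only [h3]
    rw [integral_add ((integrable_bdd_mul hG hb _).const_mul _)
      ((integrable_bdd_mul hcm hcb _).const_mul _), integral_const_mul, integral_const_mul, h, hconj]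
    simp
  filter_upwards [hre, him] with x h1 h2
  exact Complex.ext h1 h2

/-- Fourier coefficients of a translate. -/
lemma integral_translate {μ : Measure (KK I)} [IsFiniteMeasure μ] [μ.IsAddLeftInvariant]
    (Θ : KK I) (F : KK I → ℂ) : ∫ k, F (k + Θ) ∂μ = ∫ k, F k ∂μ :=
  integral_add_right_eq_self F Θ

/-- eigenvalues of the rotation by `Θ` are given by characters -/
lemma eigen {μ : Measure (KK I)} [IsFiniteMeasure μ] [μ.IsAddLeftInvariant]
    {Θ : KK I} {G : KK I → ℂ} (hG : Measurable G) {C : ℝ} (hb : ∀ x, ‖G x‖ ≤ C) {c : ℂ}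
    (hc : ∀ᵐ k ∂μ, G (k + Θ) = c * G k) (h0 : ¬ G =ᵐ[μ] 0) :
    ∃ l, c = EE l Θ := by
  by_contra hcon
  push Not at hcon
  apply h0
  apply fc_complex hG hb
  intro l
  have h1 : ∫ k, G k * EE l k ∂μ = c * EE l Θ * ∫ k, G k * EE l k ∂μ := by
    calc ∫ k, G k * EE l k ∂μ = ∫ k, G (k + Θ) * EE l (k + Θ) ∂μ :=
          (integral_translate Θ fun k => G k * EE l k).symm
      _ = ∫ k, (c * EE l Θ) * (G k * EE l k) ∂μ := by
          refine integral_congr_ae ?_
          filter_upwards [hc] with k hk
          rw [hk, EE_add_right]; ring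
      _ = _ := integral_const_mul _ _
  by_contra hne
  have h2 : c * EE l Θ = 1 := by
    have h3 : (1 - c * EE l Θ) * ∫ k, G k * EE l k ∂μ = 0 := by linear_combination h1
    rcases mul_eq_zero.1 h3 with h4 | h4
    · linear_combination -h4
    · exact absurd h4 hne
  apply hcon (-l)
  rw [EE_neg, BoundedContinuousFunction.star_apply]
  have h5 : EE l Θ * star (EE l Θ) = 1 := by
    rw [Complex.star_def, Complex.mul_conj, Complex.normSq_eq_norm_sq, norm_EE]; simp
  calc c = c * (EE l Θ * star (EE l Θ)) := by rw [h5, mul_one]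
    _ = (c * EE l Θ) * star (EE l Θ) := by ring
    _ = _ := by rw [h2, one_mul]

/-- an ergodic rotation only has constant invariant functions -/
lemma ergodic_const {μ : Measure (KK I)} [IsProbabilityMeasure μ] [μ.IsAddLeftInvariant]
    {Θ : KK I} (herg : ∀ l : (I →₀ ℤ) × ℤ, EE l Θ = 1 → ∀ k, EE l k = 1)
    {G : KK I → ℂ} (hG : Measurable G) {C : ℝ} (hb : ∀ x, ‖G x‖ ≤ C)
    (hc : ∀ᵐ k ∂μ, G (k + Θ) = G k) : ∃ c : ℂ, ∀ᵐ k ∂μ, G k = c := by
  set m : ℂ := ∫ k, G k ∂μ with hm
  refine ⟨m, ?_⟩
  have hmn : ∀ x, ‖G x - m‖ ≤ C + ‖m‖ := fun x => (norm_sub_le _ _).trans (by gcongr; exact hb x)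
  have h1 : (fun k => G k - m) =ᵐ[μ] 0 := by
    refine fc_complex (hG.sub_const m) hmn fun l => ?_
    have hi1 : Integrable (fun k => G k * EE l k) μ := integrable_bdd_mul hG hb _
    have hi2 : Integrable (fun k => EE l k) μ := by
      simpa using integrable_bdd_mul (μ := μ) (G := fun _ => (1 : ℂ)) measurable_const (C := 1)
        (by simp) (EE l)
    have h2 : ∀ k, (G k - m) * EE l k = G k * EE l k - m * EE l k := fun k => by ring
    simp only [h2]
    rw [integral_sub hi1 (hi2.const_mul _), integral_const_mul]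
    by_cases hl : EE l Θ = 1
    · have hl' := herg l hl
      simp only [hl', mul_one]
      simp [hm]
    · have e1 : ∫ k, G k * EE l k ∂μ = EE l Θ * ∫ k, G k * EE l k ∂μ := by
        calc ∫ k, G k * EE l k ∂μ = ∫ k, G (k + Θ) * EE l (k + Θ) ∂μ :=
              (integral_translate Θ fun k => G k * EE l k).symm
          _ = ∫ k, (EE l Θ) * (G k * EE l k) ∂μ := by
              refine integral_congr_ae ?_
              filter_upwards [hc] with k hk
              rw [hk, EE_add_right]; ring
          _ = _ := integral_const_mul _ _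
      have e2 : ∫ k, EE l k ∂μ = EE l Θ * ∫ k, EE l k ∂μ := by
        calc ∫ k, EE l k ∂μ = ∫ k, EE l (k + Θ) ∂μ := (integral_translate Θ fun k => EE l k).symm
          _ = ∫ k, (EE l Θ) * (EE l k) ∂μ := by
              refine integral_congr_ae (Eventually.of_forall fun k => ?_)
              simp only [EE_add_right]; ring
          _ = _ := integral_const_mul _ _
      have hne : (1 - EE l Θ) ≠ 0 := fun h => hl (by linear_combination -h)
      have e3 : ∫ k, G k * EE l k ∂μ = 0 := by
        have : (1 - EE l Θ) * ∫ k, G k * EE l k ∂μ = 0 := by linear_combination e1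
        exact (mul_eq_zero.1 this).resolve_left hne
      have e4 : ∫ k, EE l k ∂μ = 0 := by
        have : (1 - EE l Θ) * ∫ k, EE l k ∂μ = 0 := by linear_combination e2
        exact (mul_eq_zero.1 this).resolve_left hne
      rw [e3, e4]; simp
  filter_upwards [h1] with k hk
  have : G k - m = 0 := hk
  linear_combination this

end

end Pool.Agent.H48
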