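import Pool.Agent.H48.Codes

/-!
# Reduction of analytic sets
-/

set_option autoImplicit false

open MeasureTheory Filter Topology
open scoped unitInterval

namespace Pool.Agent.H48

instance : PolishSpace (ZZ (List ℕ)) := by
  unfold ZZ
  exact PolishSpace.mk

lemma sgm_eq_iff {x x' : ℕ → ℕ} {n : ℕ} : sgm x n = sgm x' n ↔ ∀ k < n, x k = x' k := by
  unfold sgm
  rw [List.map_inj_left]
  simp

/-- tree representation of analytic sets -/
lemma exists_tree {B : Set (ℕ → ℕ)} (hB : AnalyticSet B) :
    ∃ R : (ℕ → ℕ) → List ℕ → Prop, (∀ y s a, R y (s ++ [a]) → R y s) ∧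
      (∀ y s, ∀ᶠ y' in 𝓝 y, (R y' s ↔ R y s)) ∧
      ∀ y, (y ∈ B ↔ ∃ x, ∀ n, R y (sgm x n)) := by
  rw [AnalyticSet] at hB
  rcases hB with hB | ⟨f, hf, hfr⟩
  · refine ⟨fun _ _ => False, fun _ _ _ h => h, fun y s => Eventually.of_forall fun _ => Iff.rfl, ?_⟩
    intro y
    rw [hB]
    constructor
    · intro h; exact absurd h (Set.notMem_empty _)
    · rintro ⟨x, hx⟩; exact (hx 0).elim
  · refine ⟨fun y s => ∃ x : ℕ → ℕ, sgm x s.length = s ∧ ∀ k < s.length, f x k = y k, ?_, ?_, ?_⟩
    · rintro y s a ⟨x, hx1, hx2⟩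
      rw [List.length_append, List.length_singleton] at hx1 hx2
      refine ⟨x, ?_, fun k hk => hx2 k (by omega)⟩
      rw [sgm_succ] at hx1
      exact (List.append_inj hx1 (by simp)).1
    · intro y s
      have h1 : ∀ᶠ y' : ℕ → ℕ in 𝓝 y, ∀ k ∈ Finset.range s.length, y' k = y k := by
        rw [Filter.eventually_all_finset]
        intro k _
        have h2 : Tendsto (fun y' : ℕ → ℕ => y' k) (𝓝 y) (𝓝 (y k)) :=
          (continuous_apply k).tendsto y
        exact h2 (by rw [nhds_discrete]; exact rfl : {n | n = y k} ∈ 𝓝 (y k))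
      filter_upwards [h1] with y' hy'
      constructor
      · rintro ⟨x, hx1, hx2⟩
        exact ⟨x, hx1, fun k hk => by rw [hx2 k hk, hy' k (Finset.mem_range.2 hk)]⟩
      · rintro ⟨x, hx1, hx2⟩
        exact ⟨x, hx1, fun k hk => by rw [hx2 k hk, hy' k (Finset.mem_range.2 hk)]⟩
    · intro y
      rw [← hfr]
      constructor
      · rintro ⟨x, rfl⟩
        exact ⟨x, fun n => ⟨x, by simp, fun k _ => rfl⟩⟩
      · rintro ⟨x, hx⟩
        choose xn hxn1 hxn2 using hx
        simp only [sgm_length] at hxn1 hxn2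
        refine ⟨x, ?_⟩
        have h1 : Tendsto xn atTop (𝓝 x) := by
          rw [tendsto_pi_nhds]
          intro k
          refine tendsto_const_nhds.congr' ?_
          filter_upwards [eventually_gt_atTop k] with n hn
          exact (sgm_eq_iff.1 (hxn1 n) k hn).symm
        have h2 := (hf.tendsto x).comp h1
        funext k
        have h3 : Tendsto (fun n => f (xn n) k) atTop (𝓝 (f x k)) :=
          ((continuous_apply k).tendsto _).comp h2
        have h4 : Tendsto (fun n => f (xn n) k) atTop (𝓝 (y k)) := by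
          refine tendsto_const_nhds.congr' ?_
          filter_upwards [eventually_gt_atTop k] with n hn
          exact (hxn2 n k hn).symm
        exact tendsto_nhds_unique h3 h4

lemma vld_locally {Y : Type} [TopologicalSpace Y] {R : Y → List ℕ → Prop}
    (hR : ∀ y s, ∀ᶠ y' in 𝓝 y, (R y' s ↔ R y s)) (y : Y) (i : IX) :
    ∀ᶠ y' in 𝓝 y, (vld (R y') i ↔ vld (R y) i) := by
  have h1 : ∀ᶠ y' in 𝓝 y, ∀ t ∈ i.2.support, (R y' t ↔ R y t) := by
    rw [Filter.eventually_all_finset]
    intro t _
    exact hR y t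
  filter_upwards [h1] with y' hy'
  unfold vld
  constructor
  · intro h t ht; exact ⟨(h t ht).1, (hy' t ht).1 (h t ht).2⟩
  · intro h t ht; exact ⟨(h t ht).1, (hy' t ht).2 (h t ht).2⟩

lemma continuous_Th_param {Y : Type} [TopologicalSpace Y] {R : Y → List ℕ → Prop}
    (hR : ∀ y s, ∀ᶠ y' in 𝓝 y, (R y' s ↔ R y s)) (z : ZZ (List ℕ)) :
    Continuous fun y => Th (R y) z := by
  unfold Th
  refine (continuous_pi fun i => ?_).prodMk continuous_const
  rw [continuous_iff_continuousAt]
  intro y
  refine tendsto_const_nhds.congr' ?_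
  filter_upwards [vld_locally hR y i] with y' hy'
  congr 1
  by_cases h : vld (R y) i
  · rw [cd_valid h, cd_valid (hy'.2 h)]
  · rw [cd_invalid h, cd_invalid (fun h' => h (hy'.1 h'))]

theorem hardness {B : Set (ℕ → ℕ)} (hB : AnalyticSet B) :
    ∃ f : (ℕ → ℕ) → ((ℚ × ℚ) × (ℚ × ℚ) → ℝ), Continuous f ∧
      (∀ y, ∃ T : unitInterval ≃ᵐ unitInterval, MeasurePreserving (⇑T) volume volume ∧
        f y = cde T) ∧
      ∀ y, (y ∈ B ↔ ∃ S : unitInterval ≃ᵐ unitInterval, MeasurePreserving (⇑S) volume volume ∧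
        f y = cde (S.trans S)) := by
  obtain ⟨R, hR1, hR2, hR3⟩ := exists_tree hB
  obtain ⟨e, he⟩ := exists_equiv_unitInterval (μ := muX) muX_singleton
  have hes : MeasurePreserving e.symm volume muX := he.symm
  let T : (ℕ → ℕ) → (unitInterval ≃ᵐ unitInterval) :=
    fun y => e.symm.trans ((skewE (R y)).trans e)
  have hT : ∀ y, MeasurePreserving (T y) volume volume := by
    intro y
    exact he.comp ((skew_mp (R y)).comp hes)
  refine ⟨fun y => cde (T y), ?_, fun y => ⟨T y, hT y, rfl⟩, fun y => ?_⟩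
  · refine continuous_pi fun p => ?_
    have h1 : ∀ y, cde (T y) p
        = (muX (skew (Th (R y)) ⁻¹' (e ⁻¹' RI p.1) ∩ (e ⁻¹' RI p.2))).toReal := by
      intro y
      unfold cde
      congr 1
      have h2 : (T y) ⁻¹' RI p.1 ∩ RI p.2
          = e.symm ⁻¹' (skew (Th (R y)) ⁻¹' (e ⁻¹' RI p.1) ∩ (e ⁻¹' RI p.2)) := by
        ext t
        change (e (skew (Th (R y)) (e.symm t)) ∈ RI p.1 ∧ t ∈ RI p.2) ↔
          (e (skew (Th (R y)) (e.symm t)) ∈ RI p.1 ∧ e (e.symm t) ∈ RI p.2)
        rw [e.apply_symm_apply]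
      rw [h2]
      exact hes.measure_preimage_equiv _
    simp only [h1]
    refine continuous_measure_preimage (T := fun y => skew (Th (R y)))
      (fun y => skew_mp (R y)) (fun ω => ?_)
      (e.measurable (measurableSet_RI _)) (e.measurable (measurableSet_RI _))
    unfold skew
    exact continuous_const.prodMk (continuous_const.add (continuous_Th_param hR2 ω.1))
  · rw [hR3]
    constructor
    · rintro ⟨x, hx⟩
      refine ⟨e.symm.trans ((rtE hx).trans e), ?_, ?_⟩
      · exact he.comp ((rt_mp hx).comp hes)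
      · have h3 : ((T y : unitInterval ≃ᵐ unitInterval) : unitInterval → unitInterval)
            = ((e.symm.trans ((rtE hx).trans e)).trans (e.symm.trans ((rtE hx).trans e)) :
              unitInterval ≃ᵐ unitInterval) := by
          funext t
          have h4 : (T y) t = e (skew (Th (R y)) (e.symm t)) := rfl
          have h5 : ((e.symm.trans ((rtE hx).trans e)).trans (e.symm.trans ((rtE hx).trans e))) t
              = e (rt (R y) x (e.symm (e (rt (R y) x (e.symm t))))) := rfl
          rw [h4, h5, e.symm_apply_apply, rt_rt hx]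
        exact congrArg cde h3
    · rintro ⟨S, hS, hcode⟩
      by_contra hnb
      have hae : (T y : unitInterval → unitInterval) =ᵐ[volume] (S.trans S) :=
        ae_eq_of_cde (T y).measurable (S.trans S).measurable hcode
      have hS' : MeasurePreserving (fun ω => e.symm (S (e ω))) muX muX := hes.comp (hS.comp he)
      refine no_root (μZ := muZ) (μK := muK) (Θ := Th (R y)) (measurable_Th (R y))
        (S := fun ω => e.symm (S (e ω))) hS' ?_ (fun z l => Th_erg z l) (fun z => Th_neg z)
        (fun z z' => Th_rigid (hR1 y) hnb z z')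
      have h1 := he.quasiMeasurePreserving.ae hae
      change ∀ᵐ ω ∂muX, _
      filter_upwards [h1] with ω hω
      have h2 : e (skew (Th (R y)) (e.symm (e ω))) = S (S (e ω)) := hω
      rw [e.symm_apply_apply] at h2
      change e.symm (S (e (e.symm (S (e ω))))) = skew (Th (R y)) ω
      rw [e.apply_symm_apply, ← h2, e.symm_apply_apply]

end Pool.Agent.H48
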