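import Pool.Agent.H48.Fourier

/-!
# A continuous family of rationally independent points on the circle
-/

set_option autoImplicit false

open MeasureTheory Filter Topology

namespace Pool.Agent.H48

/-- weights -/
noncomputable def wt (s : ℕ) : ℝ := (1 / 2 : ℝ) ^ (s ^ 2)

lemma wt_pos (s : ℕ) : 0 < wt s := by unfold wt; positivity

lemma wt_le (s : ℕ) : wt s ≤ (1 / 2 : ℝ) ^ s := by
  unfold wt
  exact pow_le_pow_of_le_one (by norm_num) (by norm_num) (Nat.le_self_pow (by norm_num) s)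

lemma summable_wt {b : ℕ → ℤ} {A : ℝ} (hb : ∀ s, |(b s : ℝ)| ≤ A) :
    Summable fun s => (b s : ℝ) * wt s := by
  have hA : 0 ≤ A := (abs_nonneg _).trans (hb 0)
  refine Summable.of_norm_bounded (g := fun s => A * (1 / 2 : ℝ) ^ s)
    ((summable_geometric_of_lt_one (by norm_num) (by norm_num)).mul_left A) fun s => ?_
  rw [Real.norm_eq_abs, abs_mul, abs_of_pos (wt_pos s)]
  exact mul_le_mul (hb s) (wt_le s) (wt_pos s).le hA

/-- tails -/
lemma tail_bound {b : ℕ → ℤ} {A : ℝ} (hb : ∀ s, |(b s : ℝ)| ≤ A) (n : ℕ) :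
    |2 ^ (n ^ 2) * ∑' j, (b (j + (n + 1)) : ℝ) * wt (j + (n + 1))| ≤ A * (1 / 2) ^ n := by
  have hA : 0 ≤ A := (abs_nonneg _).trans (hb 0)
  rw [← tsum_mul_left]
  have hterm : ∀ j, ‖(2 : ℝ) ^ (n ^ 2) * ((b (j + (n + 1)) : ℝ) * wt (j + (n + 1)))‖
      ≤ A * (1 / 2) ^ n * ((1 / 2) ^ (j + 1)) := by
    intro j
    rw [Real.norm_eq_abs, abs_mul, abs_mul, abs_of_pos (wt_pos _), abs_of_pos (by positivity)]
    have h1 : (2 : ℝ) ^ (n ^ 2) * wt (j + (n + 1)) ≤ (1 / 2) ^ n * (1 / 2) ^ (j + 1) := by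
      unfold wt
      rw [← pow_add]
      have h2 : (j + (n + 1)) ^ 2 = n ^ 2 + (n + (j + 1) + (2 * n * j + n + j ^ 2 + j)) := by ring
      rw [h2, pow_add, ← mul_assoc]
      have h3 : (2 : ℝ) ^ (n ^ 2) * (1 / 2) ^ (n ^ 2) = 1 := by
        rw [← mul_pow]; norm_num
      rw [h3, one_mul]
      exact pow_le_pow_of_le_one (by norm_num) (by norm_num) (Nat.le_add_right _ _)
    calc (2 : ℝ) ^ (n ^ 2) * (|(b (j + (n + 1)) : ℝ)| * wt (j + (n + 1)))
        = |(b (j + (n + 1)) : ℝ)| * ((2 : ℝ) ^ (n ^ 2) * wt (j + (n + 1))) := by ring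
      _ ≤ A * ((1 / 2) ^ n * (1 / 2) ^ (j + 1)) :=
          mul_le_mul (hb _) h1 (by have := wt_pos (j + (n + 1)); positivity) hA
      _ = _ := by ring
  have hs : HasSum (fun j : ℕ => A * (1 / 2 : ℝ) ^ n * ((1 / 2) ^ (j + 1))) (A * (1 / 2) ^ n) := by
    have h := (hasSum_geometric_two).mul_left (A * (1 / 2 : ℝ) ^ n * (1 / 2))
    have e : (A * (1 / 2 : ℝ) ^ n * (1 / 2)) * 2 = A * (1 / 2) ^ n := by ring
    rw [e] at h
    have e2 : (fun j : ℕ => A * (1 / 2 : ℝ) ^ n * ((1 / 2) ^ (j + 1)))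
        = fun j : ℕ => A * (1 / 2 : ℝ) ^ n * (1 / 2) * (1 / 2) ^ j := by
      funext j; ring
    rw [e2]; exact h
  have := tsum_of_norm_bounded hs hterm
  rwa [Real.norm_eq_abs] at this

/-- a bounded integer sequence whose weighted sum is a half-integer is eventually zero -/
lemma eventually_zero {b : ℕ → ℤ} {A : ℝ} (hb : ∀ s, |(b s : ℝ)| ≤ A) {q : ℤ}
    (hq : 2 * ∑' s, (b s : ℝ) * wt s = q) : ∃ N, ∀ s, N ≤ s → b s = 0 := by
  have hA : 0 ≤ A := (abs_nonneg _).trans (hb 0)
  set t : ℕ → ℝ := fun n => ∑' j, (b (j + (n + 1)) : ℝ) * wt (j + (n + 1)) with ht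
  have hsum := summable_wt hb
  -- the tail is an integer after scaling
  have hint : ∀ n, 1 ≤ n → ∃ z : ℤ, 2 ^ (n ^ 2) * t n = z := by
    intro n hn
    have h1 := hsum.sum_add_tsum_nat_add (n + 1)
    have h2 : t n = q / 2 - ∑ i ∈ Finset.range (n + 1), (b i : ℝ) * wt i := by
      simp only [ht]; linarith
    have h3 : ∃ z : ℤ, (2 : ℝ) ^ (n ^ 2) * ∑ i ∈ Finset.range (n + 1), (b i : ℝ) * wt i = z := by
      refine ⟨∑ i ∈ Finset.range (n + 1), b i * 2 ^ (n ^ 2 - i ^ 2), ?_⟩
      push_cast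
      rw [Finset.mul_sum]
      refine Finset.sum_congr rfl fun i hi => ?_
      have hi' : i ^ 2 ≤ n ^ 2 := Nat.pow_le_pow_left (by
        have := Finset.mem_range.1 hi; omega) 2
      unfold wt
      have h4 : (2 : ℝ) ^ (n ^ 2) = 2 ^ (n ^ 2 - i ^ 2) * 2 ^ (i ^ 2) := by
        rw [← pow_add, Nat.sub_add_cancel hi']
      rw [h4]
      have h5 : (2 : ℝ) ^ (i ^ 2) * (1 / 2) ^ (i ^ 2) = 1 := by
        rw [← mul_pow]; norm_num
      linear_combination (2 : ℝ) ^ (n ^ 2 - i ^ 2) * (b i : ℝ) * h5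
    obtain ⟨z, hz⟩ := h3
    refine ⟨q * 2 ^ (n ^ 2 - 1) - z, ?_⟩
    push_cast
    rw [h2, mul_sub, hz]
    have h6 : (2 : ℝ) ^ (n ^ 2) = 2 * 2 ^ (n ^ 2 - 1) := by
      rw [← pow_succ']
      congr 1
      have : 1 ≤ n ^ 2 := Nat.one_le_pow _ _ hn
      omega
    rw [h6]; ring
  obtain ⟨N, hN⟩ : ∃ N : ℕ, A * (1 / 2 : ℝ) ^ N < 1 := by
    have h1 : Tendsto (fun n : ℕ => A * (1 / 2 : ℝ) ^ n) atTop (𝓝 (A * 0)) :=
      (tendsto_pow_atTop_nhds_zero_of_lt_one (by norm_num) (by norm_num)).const_mul A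
    rw [mul_zero] at h1
    exact (h1.eventually (gt_mem_nhds one_pos)).exists
  have hzero : ∀ n, N + 1 ≤ n → t n = 0 := by
    intro n hn
    obtain ⟨z, hz⟩ := hint n (by omega)
    have h1 := tail_bound hb n
    have h2 : A * (1 / 2 : ℝ) ^ n ≤ A * (1 / 2 : ℝ) ^ N :=
      mul_le_mul_of_nonneg_left
        (pow_le_pow_of_le_one (by norm_num) (by norm_num) (by omega)) hA
    change |2 ^ (n ^ 2) * t n| ≤ _ at h1
    rw [hz] at h1
    have h3 : |(z : ℝ)| < 1 := by linarith
    have h4 : z = 0 := by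
      have : |z| < 1 := by exact_mod_cast h3
      exact Int.abs_lt_one_iff.1 this
    rw [h4] at hz
    simp only [Int.cast_zero] at hz
    rcases mul_eq_zero.1 hz with h5 | h5
    · exact absurd h5 (by positivity)
    · exact h5
  refine ⟨N + 3, fun s hs => ?_⟩
  obtain ⟨n, rfl⟩ : ∃ n, s = n + 1 := ⟨s - 1, by omega⟩
  have h1 := hzero n (by omega)
  have h2 := hzero (n + 1) (by omega)
  have hs' : Summable fun j => (b (j + (n + 1)) : ℝ) * wt (j + (n + 1)) :=
    (summable_nat_add_iff (f := fun s => (b s : ℝ) * wt s) (n + 1)).2 hsum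
  have h3 : t n = (b (0 + (n + 1)) : ℝ) * wt (0 + (n + 1))
      + ∑' j, (b (j + 1 + (n + 1)) : ℝ) * wt (j + 1 + (n + 1)) := hs'.tsum_eq_zero_add
  have h4 : t (n + 1) = ∑' j, (b (j + 1 + (n + 1)) : ℝ) * wt (j + 1 + (n + 1)) := by
    simp only [ht]
    refine tsum_congr fun j => ?_
    have e : j + (n + 1 + 1) = j + 1 + (n + 1) := by ring
    rw [e]
  rw [← h4, h2, h1] at h3
  simp only [zero_add, add_zero] at h3
  rcases mul_eq_zero.1 h3.symm with h5 | h5
  · exact_mod_cast h5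
  · exact absurd h5 (wt_pos _).ne'

/-- the type of codes -/
abbrev Cd : Type := ℕ × (List ℕ → ZMod 2)

/-- an enumeration of `List ℕ` -/
noncomputable def nd : ℕ → List ℕ := (exists_surjective_nat (List ℕ)).choose

lemma nd_surj : Function.Surjective nd := (exists_surjective_nat (List ℕ)).choose_spec

/-- an injection of finite codes into `ℕ` -/
noncomputable def fcode : ℕ × List (ZMod 2) → ℕ :=
  (Countable.exists_injective_nat (ℕ × List (ZMod 2))).choose

lemma fcode_inj : Function.Injective fcode :=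
  (Countable.exists_injective_nat (ℕ × List (ZMod 2))).choose_spec

/-- the code of the `m`-th initial segment of a code -/
noncomputable def sg (c : Cd) (m : ℕ) : ℕ := fcode (c.1, (List.range m).map fun k => c.2 (nd k))

lemma sg_eq {c c' : Cd} {m m' : ℕ} (h : sg c m = sg c' m') :
    m = m' ∧ c.1 = c'.1 ∧ ∀ k < m, c.2 (nd k) = c'.2 (nd k) := by
  have h1 := fcode_inj h
  rw [Prod.mk.injEq] at h1
  obtain ⟨h2, h3⟩ := h1
  have h4 : m = m' := by simpa using congrArg List.length h3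
  subst h4
  refine ⟨rfl, h2, fun k hk => ?_⟩
  have h5 := List.map_inj_left.1 h3 k (List.mem_range.2 hk)
  exact h5

lemma sg_injective (c : Cd) : Function.Injective (sg c) := fun _ _ h => (sg_eq h).1

/-- `s` codes an initial segment of `c` -/
def D (c : Cd) (s : ℕ) : Prop := ∃ m, sg c m = s

lemma D_sep {c c' : Cd} (h : c ≠ c') : ∃ M, ∀ m, M ≤ m → ¬ D c' (sg c m) := by
  by_cases h1 : c.1 = c'.1
  · have h2 : c.2 ≠ c'.2 := fun h2 => h (Prod.ext h1 h2)
    obtain ⟨l, hl⟩ := Function.ne_iff.1 h2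
    obtain ⟨k, rfl⟩ := nd_surj l
    refine ⟨k + 1, fun m hm => ?_⟩
    rintro ⟨m', hm'⟩
    obtain ⟨h3, -, h4⟩ := sg_eq hm'
    exact hl (h4 k (by omega)).symm
  · refine ⟨0, fun m _ => ?_⟩
    rintro ⟨m', hm'⟩
    exact h1 (sg_eq hm').2.1.symm

lemma isClopen_D (s : ℕ) : IsClopen {c : Cd | D c s} := by
  by_cases hs : ∃ p, fcode p = s
  · obtain ⟨⟨n, l⟩, rfl⟩ := hs
    have h1 : {c : Cd | D c (fcode (n, l))}
        = {c : Cd | c.1 = n} ∩ ⋂ k ∈ Finset.range l.length, {c : Cd | c.2 (nd k) = l.getD k 0} := by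
      ext c
      simp only [Set.mem_ofPred_eq, Set.mem_inter_iff, Set.mem_iInter, Finset.mem_range]
      constructor
      · rintro ⟨m, hm⟩
        have h2 := fcode_inj hm
        rw [Prod.mk.injEq] at h2
        obtain ⟨h3, h4⟩ := h2
        refine ⟨h3, fun k hk => ?_⟩
        subst h4
        simp only [List.length_map, List.length_range] at hk
        simp [List.getD, hk]
      · rintro ⟨h3, h4⟩
        refine ⟨l.length, ?_⟩
        unfold sg
        rw [h3]
        congr 2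
        apply List.ext_getElem
        · simp
        · intro k hk1 hk2
          simp only [List.getElem_map, List.getElem_range]
          rw [h4 k hk2]
          simp [List.getD, hk2]
    rw [h1]
    refine IsClopen.inter ?_ (isClopen_biInter_finset fun k _ => ?_)
    · exact (isClopen_discrete {n}).preimage continuous_fst
    · exact (isClopen_discrete {l.getD k 0}).preimage ((continuous_apply (nd k)).comp continuous_snd)
  · have h1 : {c : Cd | D c s} = ∅ := by
      ext c
      simp only [Set.mem_ofPred_eq, Set.mem_empty_iff_false, iff_false]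
      rintro ⟨m, hm⟩
      exact hs ⟨_, hm⟩
    rw [h1]; exact isClopen_empty

open Classical in
/-- indicator -/
noncomputable def ind (c : Cd) (s : ℕ) : ℤ := if D c s then 1 else 0

/-- the real number attached to a code -/
noncomputable def kapR (c : Cd) : ℝ := ∑' s, (ind c s : ℝ) * wt s

/-- the point of the circle attached to a code -/
noncomputable def kap (c : Cd) : UnitAddCircle := ((kapR c : ℝ) : UnitAddCircle)

lemma abs_ind_le (c : Cd) (s : ℕ) : |(ind c s : ℝ)| ≤ 1 := by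
  unfold ind
  split_ifs <;> simp

lemma continuous_kapR : Continuous kapR := by
  unfold kapR
  refine continuous_tsum (u := fun s => (1 / 2 : ℝ) ^ s) (fun s => ?_)
    (summable_geometric_of_lt_one (by norm_num) (by norm_num)) fun s c => ?_
  · refine Continuous.mul ?_ continuous_const
    have h1 : (fun c : Cd => (ind c s : ℝ)) = Set.indicator {c : Cd | D c s} (fun _ => (1 : ℝ)) := by
      funext c
      unfold ind
      by_cases hD : D c s
      · rw [if_pos hD, Set.indicator_of_mem (show c ∈ {c : Cd | D c s} from hD)]; simp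
      · rw [if_neg hD, Set.indicator_of_notMem (show c ∉ {c : Cd | D c s} from hD)]; simp
    rw [h1]
    exact (IsClopen.continuous_indicator (isClopen_D s) continuous_const)
  · rw [Real.norm_eq_abs, abs_mul, abs_of_pos (wt_pos s)]
    calc |(ind c s : ℝ)| * wt s ≤ 1 * wt s :=
          mul_le_mul_of_nonneg_right (abs_ind_le c s) (wt_pos s).le
      _ ≤ (1 / 2 : ℝ) ^ s := by rw [one_mul]; exact wt_le s

lemma continuous_kap : Continuous kap :=
  (AddCircle.continuous_mk' (1 : ℝ)).comp continuous_kapR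

/-- rational independence -/
lemma kap_indep (F : Finset Cd) (a : Cd → ℤ) (j : ℤ)
    (h : ∑ c ∈ F, a c • kap c + j • half = 0) : (∀ c ∈ F, a c = 0) ∧ Even j := by
  classical
  have h1 : (((∑ c ∈ F, (a c : ℝ) * kapR c) + (j : ℝ) * (1 / 2) : ℝ) : UnitAddCircle) = 0 := by
    rw [← h]
    have : ∀ r : ℝ, ((r : ℝ) : UnitAddCircle) = QuotientAddGroup.mk' _ r := fun r => rfl
    rw [this, map_add, map_sum]
    congr 1
    · refine Finset.sum_congr rfl fun c _ => ?_
      rw [← zsmul_eq_mul, map_zsmul]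
      rfl
    · rw [← zsmul_eq_mul, map_zsmul]
      rfl
  rw [AddCircle.coe_eq_zero_iff] at h1
  obtain ⟨n, hn⟩ := h1
  simp only [zsmul_eq_mul, mul_one] at hn
  set b : ℕ → ℤ := fun s => ∑ c ∈ F, a c * ind c s with hb
  have hbb : ∀ s, |(b s : ℝ)| ≤ ∑ c ∈ F, |(a c : ℝ)| := by
    intro s
    simp only [hb]
    push_cast
    refine (Finset.abs_sum_le_sum_abs _ _).trans (Finset.sum_le_sum fun c _ => ?_)
    rw [abs_mul]
    exact mul_le_of_le_one_right (abs_nonneg _) (abs_ind_le c s)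
  have hsum : ∑ c ∈ F, (a c : ℝ) * kapR c = ∑' s, (b s : ℝ) * wt s := by
    have h2 : ∀ s, (b s : ℝ) * wt s = ∑ c ∈ F, (a c : ℝ) * ((ind c s : ℝ) * wt s) := by
      intro s
      simp only [hb]
      push_cast
      rw [Finset.sum_mul]
      exact Finset.sum_congr rfl fun c _ => by ring
    simp only [h2]
    rw [Summable.tsum_finsetSum]
    · refine Finset.sum_congr rfl fun c _ => ?_
      rw [tsum_mul_left]
      rfl
    · intro c _
      exact (summable_wt (b := ind c) (A := 1) (abs_ind_le c)).mul_left _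
  obtain ⟨N, hN⟩ := eventually_zero hbb (q := 2 * n - j) (by
    rw [← hsum]; push_cast; linarith)
  have ha : ∀ c ∈ F, a c = 0 := by
    intro c hc
    have h3 : ∀ c' ∈ F, ∃ M, ∀ m, M ≤ m → c' ≠ c → ¬ D c' (sg c m) := by
      intro c' _
      by_cases hcc : c = c'
      · exact ⟨0, fun m _ h => absurd hcc.symm h⟩
      · obtain ⟨M, hM⟩ := D_sep hcc
        exact ⟨M, fun m hm _ => hM m hm⟩
    choose! M hM using h3
    have h4 : ∀ᶠ m in atTop, N ≤ sg c m :=
      ((sg_injective c).nat_tendsto_atTop).eventually_ge_atTop N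
    obtain ⟨m, hm1, hm2⟩ := (h4.and (eventually_ge_atTop (F.sup M))).exists
    have h5 := hN _ hm1
    simp only [hb] at h5
    rw [Finset.sum_eq_single c] at h5
    · have : ind c (sg c m) = 1 := by
        unfold ind
        rw [if_pos ⟨m, rfl⟩]
      rwa [this, mul_one] at h5
    · intro c' hc' hne
      have : ind c' (sg c m) = 0 := by
        unfold ind
        rw [if_neg (hM c' hc' m ((Finset.le_sup hc').trans hm2) hne)]
      rw [this, mul_zero]
    · exact fun h => absurd hc h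
  refine ⟨ha, ?_⟩
  have h6 : ∑ c ∈ F, (a c : ℝ) * kapR c = 0 :=
    Finset.sum_eq_zero fun c hc => by rw [ha c hc]; simp
  rw [h6, zero_add] at hn
  have h7 : (j : ℝ) = 2 * n := by linarith
  have h8 : j = 2 * n := by exact_mod_cast h7
  exact ⟨n, by omega⟩

end Pool.Agent.H48
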