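import Pool.Agent.H48.Fourier

/-!
# Skew products over compact groups without square roots
-/

set_option autoImplicit false

open MeasureTheory Filter Topology

namespace Pool.Agent.H48

variable {I : Type} [Countable I] {W : Type}

/-- base space -/
abbrev ZZ (W : Type) : Type := W → ZMod 2

/-- the skew translation -/
def skew (Θ : ZZ W → KK I) (ω : ZZ W × KK I) : ZZ W × KK I := (ω.1, ω.2 + Θ ω.1)

lemma zmod2_ite {a b : ZMod 2}
    (h : (if a = 0 then (0 : ℂ) else 1) = if b = 0 then (0 : ℂ) else 1) : a = b := by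
  have h01 : ∀ x : ZMod 2, x = 0 ∨ x = 1 := by decide
  have ha := h01 a
  have hb := h01 b
  have h10 : (1 : ZMod 2) ≠ 0 := by decide
  rcases ha with rfl | rfl <;> rcases hb with rfl | rfl
  · rfl
  · rw [if_pos rfl, if_neg h10] at h; exact absurd h zero_ne_one
  · rw [if_pos rfl, if_neg h10] at h; exact absurd h one_ne_zero
  · rfl

theorem no_root [Countable W] {μZ : Measure (ZZ W)} [IsProbabilityMeasure μZ]
    {μK : Measure (KK I)} [IsProbabilityMeasure μK] [μK.IsAddLeftInvariant]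
    {Θ : ZZ W → KK I} (hΘ : Measurable Θ)
    {S : ZZ W × KK I → ZZ W × KK I} (hS : MeasurePreserving S (μZ.prod μK) (μZ.prod μK))
    (hSS : ∀ᵐ ω ∂(μZ.prod μK), S (S ω) = skew Θ ω)
    (herg : ∀ z (l : (I →₀ ℤ) × ℤ), EE l (Θ z) = 1 → ∀ k, EE l k = 1)
    (hneg : ∀ z, EE ((0, 1) : (I →₀ ℤ) × ℤ) (Θ z) ≠ 1)
    (hrigid : ∀ z z', (∀ i : I, ∃ l : (I →₀ ℤ) × ℤ,
      EE ((Finsupp.single i 1, 0) : (I →₀ ℤ) × ℤ) (Θ z') = EE l (Θ z)) → z' = z) : False := by
  have hTm : Measurable (skew Θ) :=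
    measurable_fst.prodMk (measurable_snd.add (hΘ.comp measurable_fst))
  -- commutation
  have hcomm : ∀ᵐ ω ∂(μZ.prod μK), S (skew Θ ω) = skew Θ (S ω) := by
    filter_upwards [hSS, hS.quasiMeasurePreserving.ae hSS] with ω h1 h2
    rw [← h1, h2]
  have hcomm2 := Measure.ae_ae_of_ae_prod hcomm
  -- base coordinate
  have hbase : ∀ᵐ z ∂μZ, ∀ᵐ k ∂μK, (S (z, k)).1 = z := by
    filter_upwards [hcomm2] with z hz
    have hSz : Measurable fun k => S (z, k) := hS.measurable.comp measurable_prodMk_left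
    have h1 : ∀ w : W, ∃ c : ℂ, ∀ᵐ k ∂μK,
        (if (S (z, k)).1 w = 0 then (0 : ℂ) else 1) = c := by
      intro w
      refine ergodic_const (Θ := Θ z) (herg z) (C := 1) ?_ ?_ ?_
      · refine Measurable.ite ?_ measurable_const measurable_const
        exact (measurable_pi_apply w).comp (measurable_fst.comp hSz) (measurableSet_singleton 0)
      · intro x
        split_ifs <;> simp
      · filter_upwards [hz] with k hk
        have h2 : S (z, k + Θ z) = skew Θ (S (z, k)) := hk
        rw [h2]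
        rfl
    choose c hc using h1
    have h3 : ∀ᵐ k ∂μK, ∀ w, (if (S (z, k)).1 w = 0 then (0 : ℂ) else 1) = c w :=
      ae_all_iff.2 hc
    obtain ⟨k0, hk0⟩ := h3.exists
    have h4 : ∀ᵐ k ∂μK, (S (z, k)).1 = (S (z, k0)).1 := by
      filter_upwards [h3] with k hk
      funext w
      have h5 := (hk w).trans (hk0 w).symm
      exact zmod2_ite h5
    have h7 : (S (z, k0)).1 = z := by
      apply hrigid
      intro i
      set z' := (S (z, k0)).1
      refine eigen (μ := μK) (G := fun k => EE ((Finsupp.single i 1, 0) : (I →₀ ℤ) × ℤ) (S (z, k)).2)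
        (C := 1) ?_ ?_ ?_ ?_
      · exact (EE _).continuous.measurable.comp (measurable_snd.comp hSz)
      · intro x; exact (norm_EE _ _).le
      · filter_upwards [hz, h4] with k hk hk'
        have h2 : S (z, k + Θ z) = skew Θ (S (z, k)) := hk
        rw [h2]
        change EE _ ((S (z, k)).2 + Θ (S (z, k)).1) = _
        rw [hk', EE_add_right, mul_comm]
      · intro h0
        obtain ⟨k, hk⟩ := h0.exists
        have h8 := norm_EE ((Finsupp.single i 1, 0) : (I →₀ ℤ) × ℤ) (S (z, k)).2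
        have h9 : EE ((Finsupp.single i 1, 0) : (I →₀ ℤ) × ℤ) (S (z, k)).2 = 0 := hk
        rw [h9, norm_zero] at h8
        exact zero_ne_one h8
    filter_upwards [h4] with k hk
    rw [hk, h7]
  -- the sign
  set χ : KK I → ℂ := fun k => EE ((0, 1) : (I →₀ ℤ) × ℤ) k with hχ
  have hχm : Measurable χ := (EE _).continuous.measurable
  have hχ2 : ∀ k, χ k * χ k = 1 := by
    intro k
    have h1 : EE (((0, 1) : (I →₀ ℤ) × ℤ) + (0, 1)) k = 1 := by
      rw [EE_apply, ell_apply]
      have h2 : iot k.2 + iot k.2 = 0 := by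
        rw [← map_add]
        have : k.2 + k.2 = 0 := CharTwo.add_self_eq_zero _
        rw [this, map_zero]
      have h3 : ((((0, 1) : (I →₀ ℤ) × ℤ) + (0, 1)).1.sum fun i n => n • k.1 i)
          + (((0, 1) : (I →₀ ℤ) × ℤ) + (0, 1)).2 • iot k.2 = 0 := by
        have e1 : (((0, 1) : (I →₀ ℤ) × ℤ) + (0, 1)).1 = 0 := by simp
        have e2 : (((0, 1) : (I →₀ ℤ) × ℤ) + (0, 1)).2 = 1 + 1 := rfl
        rw [e1, e2, Finsupp.sum_zero_index, add_smul, one_smul, h2, add_zero]
      rw [h3, AddCircle.toCircle_zero]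
      rfl
    rw [EE_add_left] at h1
    exact h1
  have hχadd : ∀ k k', χ (k + k') = χ k * χ k' := fun k k' => EE_add_right _ _ _
  have hχn : ∀ k, ‖χ k‖ = 1 := fun k => norm_EE _ _
  set b : ZZ W × KK I → ℂ := fun ω => χ (S ω).2 * χ ω.2 with hb
  have hbm : Measurable b :=
    (hχm.comp (measurable_snd.comp hS.measurable)).mul (hχm.comp measurable_snd)
  set c : ZZ W → ℂ := fun z => ∫ k, b (z, k) ∂μK with hc
  have hcm : Measurable c :=
    (StronglyMeasurable.integral_prod_right' hbm.stronglyMeasurable).measurable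
  have hbc : ∀ᵐ ω ∂(μZ.prod μK), b ω = c ω.1 := by
    have hms : MeasurableSet {ω : ZZ W × KK I | b ω = c ω.1} :=
      measurableSet_eq_fun hbm (hcm.comp measurable_fst)
    rw [Measure.ae_prod_iff_ae_ae hms]
    filter_upwards [hcomm2, hbase] with z hz hz'
    have hSz : Measurable fun k => S (z, k) := hS.measurable.comp measurable_prodMk_left
    obtain ⟨c0, hc0⟩ := ergodic_const (μ := μK) (Θ := Θ z) (herg z) (G := fun k => b (z, k)) (C := 1)
      (hbm.comp measurable_prodMk_left)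
      (by
        intro k
        change ‖χ (S (z, k)).2 * χ k‖ ≤ 1
        rw [norm_mul, hχn, hχn, mul_one])
      (by
        filter_upwards [hz, hz'] with k hk hk'
        have h2 : S (z, k + Θ z) = skew Θ (S (z, k)) := hk
        change χ (S (z, k + Θ z)).2 * χ (k + Θ z) = χ (S (z, k)).2 * χ k
        rw [h2]
        change χ ((S (z, k)).2 + Θ (S (z, k)).1) * χ (k + Θ z) = χ (S (z, k)).2 * χ k
        rw [hk', hχadd, hχadd]
        linear_combination χ (S (z, k)).2 * χ k * hχ2 (Θ z))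
    have h8 : c z = c0 := by
      simp only [hc]
      rw [integral_congr_ae hc0]
      simp
    filter_upwards [hc0] with k hk
    rw [h8]; exact hk
  have hbase' : ∀ᵐ ω ∂(μZ.prod μK), (S ω).1 = ω.1 := by
    have hms : MeasurableSet {ω : ZZ W × KK I | (S ω).1 = ω.1} :=
      measurableSet_eq_fun (measurable_fst.comp hS.measurable) measurable_fst
    rw [Measure.ae_prod_iff_ae_ae hms]
    exact hbase
  have hfin : ∀ᵐ ω ∂(μZ.prod μK), False := by
    filter_upwards [hbc, hS.quasiMeasurePreserving.ae hbc, hbase', hSS] with ω h1 h2 h3 h4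
    apply hneg ω.1
    rw [h3] at h2
    have h5 : χ (S (S ω)).2 * χ (S ω).2 = χ (S ω).2 * χ ω.2 := h2.trans h1.symm
    rw [h4] at h5
    change χ (ω.2 + Θ ω.1) * χ (S ω).2 = _ at h5
    rw [hχadd] at h5
    have h6 : χ (Θ ω.1) = (χ ω.2 * χ ω.2) * χ (Θ ω.1) * (χ (S ω).2 * χ (S ω).2) := by
      rw [hχ2, hχ2]; ring
    change χ (Θ ω.1) = 1
    rw [h6]
    linear_combination χ ω.2 * χ (S ω).2 * h5 + χ ω.2 * χ ω.2 * hχ2 (S ω).2 + hχ2 ω.2
  obtain ⟨_, h⟩ := hfin.exists
  exact h

end Pool.Agent.H48
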