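import Pool.Agent.H48.Kappa
import Pool.Agent.H48.Skew

/-!
# The combinatorial model
-/

set_option autoImplicit false

open MeasureTheory Filter Topology

namespace Pool.Agent.H48

/-! ## Independence for families -/

lemma kap_indep_finsupp (a : Cd →₀ ℤ) (j : ℤ)
    (h : a.sum (fun c n => n • kap c) + j • half = 0) : a = 0 ∧ Even j := by
  obtain ⟨h1, h2⟩ := kap_indep a.support a j h
  refine ⟨?_, h2⟩
  ext c
  by_cases hc : c ∈ a.support
  · exact h1 c hc
  · simpa using hc

lemma sum_mapDomain_kap {I : Type} (φ : I → Cd) (a : I →₀ ℤ) :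
    (a.mapDomain φ).sum (fun c n => n • kap c) = a.sum fun i n => n • kap (φ i) :=
  Finsupp.sum_mapDomain_index (fun _ => zero_smul _ _) (fun _ _ _ => add_smul _ _ _)

lemma family_indep {I : Type} {φ : I → Cd} (hφ : Function.Injective φ) (l : (I →₀ ℤ) × ℤ)
    (h : (l.1.sum fun i n => n • kap (φ i)) + l.2 • half = 0) : l.1 = 0 ∧ Even l.2 := by
  rw [← sum_mapDomain_kap] at h
  obtain ⟨h1, h2⟩ := kap_indep_finsupp _ _ h
  refine ⟨?_, h2⟩
  apply Finsupp.mapDomain_injective hφ
  rw [h1, Finsupp.mapDomain_zero]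

lemma family_mem {I : Type} {φ : I → Cd} (l : (I →₀ ℤ) × ℤ) {c : Cd}
    (h : kap c = (l.1.sum fun i n => n • kap (φ i)) + l.2 • half) : ∃ i, φ i = c := by
  classical
  by_contra hcon
  have hc : c ∉ Set.range φ := fun ⟨i, hi⟩ => hcon ⟨i, hi⟩
  rw [← sum_mapDomain_kap] at h
  have h1 : (l.1.mapDomain φ - Finsupp.single c 1).sum (fun c n => n • kap c) + l.2 • half = 0 := by
    have h0 : (Finsupp.single c (1 : ℤ)).sum (fun c n => n • kap c) = kap c := by
      rw [Finsupp.sum_single_index (h := fun c n => n • kap c) (zero_smul _ _), one_smul]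
    rw [Finsupp.sum_sub_index (fun _ _ _ => sub_smul _ _ _), h0, h]
    abel
  obtain ⟨h2, -⟩ := kap_indep_finsupp _ _ h1
  have h3 := DFunLike.congr_fun h2 c
  simp only [Finsupp.coe_sub, Pi.sub_apply, Finsupp.coe_zero, Pi.zero_apply,
    Finsupp.single_eq_same] at h3
  rw [Finsupp.mapDomain_of_notMem_range _ _ hc] at h3
  norm_num at h3

/-! ## Codes -/

/-- the index set -/
abbrev IX : Type := ℕ × (List ℕ →₀ ZMod 2)

/-- the lift of a finitely supported function -/
noncomputable def lft (g : List ℕ →₀ ZMod 2) (s : List ℕ) : ZMod 2 :=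
  g.sum fun t a => if s <+: t then a else 0

lemma lft_add (g g' : List ℕ →₀ ZMod 2) : lft (g + g') = lft g + lft g' := by
  funext s
  unfold lft
  rw [Pi.add_apply]
  exact Finsupp.sum_add_index' (fun _ => by simp) (fun _ _ _ => by split_ifs <;> simp)

lemma lft_zero : lft 0 = 0 := by
  funext s
  simp [lft]

lemma lft_single (t s : List ℕ) : lft (Finsupp.single t 1) s = if s <+: t then 1 else 0 := by
  unfold lft
  rw [Finsupp.sum_single_index (by simp)]

/-- truncation -/
def trc (n : ℕ) (w : ZZ (List ℕ)) : ZZ (List ℕ) := fun s => if s.length ≤ n then w s else 0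

variable (R : List ℕ → Prop)

/-- valid indices -/
def vld (i : IX) : Prop := ∀ t ∈ i.2.support, t.length = i.1 ∧ R t

/-- an injective enumeration of the index set -/
noncomputable def enc : IX → ℕ := (Countable.exists_injective_nat IX).choose

lemma enc_inj : Function.Injective enc := (Countable.exists_injective_nat IX).choose_spec

open Classical in
/-- the code -/
noncomputable def cd (i : IX) (z : ZZ (List ℕ)) : Cd :=
  if vld R i then (2 * i.1, trc i.1 (z + lft i.2)) else (2 * enc i + 1, 0)

variable {R}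

lemma cd_valid {i : IX} (h : vld R i) (z : ZZ (List ℕ)) :
    cd R i z = (2 * i.1, trc i.1 (z + lft i.2)) := if_pos h

lemma cd_invalid {i : IX} (h : ¬ vld R i) (z : ZZ (List ℕ)) :
    cd R i z = (2 * enc i + 1, 0) := if_neg h

lemma lft_level {g : List ℕ →₀ ZMod 2} {n : ℕ} (hg : ∀ t ∈ g.support, t.length = n)
    {s : List ℕ} (hs : s.length = n) : lft g s = g s := by
  unfold lft Finsupp.sum
  rw [Finset.sum_eq_single s]
  · exact if_pos (List.prefix_refl _)
  · intro t ht hts
    refine if_neg ?_
    intro hp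
    exact hts (hp.eq_of_length (by rw [hs, hg t ht])).symm
  · intro h
    have h1 : g s = 0 := by simpa using h
    change (if s <+: s then g s else 0) = 0
    rw [h1, ite_self]

lemma cd_injective (z : ZZ (List ℕ)) : Function.Injective fun i => cd R i z := by
  intro i i' h
  simp only at h
  by_cases hi : vld R i
  · by_cases hi' : vld R i'
    · rw [cd_valid hi, cd_valid hi', Prod.mk.injEq] at h
      obtain ⟨h1, h2⟩ := h
      have h3 : i.1 = i'.1 := by omega
      refine Prod.ext h3 ?_
      ext s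
      by_cases hs : s.length = i.1
      · have h4 := congrFun h2 s
        unfold trc at h4
        rw [if_pos hs.le, if_pos (by omega), Pi.add_apply, Pi.add_apply] at h4
        have h5 := add_left_cancel h4
        rwa [lft_level (fun t ht => (hi t ht).1) hs,
          lft_level (n := i'.1) (fun t ht => (hi' t ht).1) (by omega)] at h5
      · have h6 : i.2 s = 0 := by
          by_contra hne
          exact hs (hi s (Finsupp.mem_support_iff.2 hne)).1
        have h7 : i'.2 s = 0 := by
          by_contra hne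
          exact hs (by rw [h3]; exact (hi' s (Finsupp.mem_support_iff.2 hne)).1)
        rw [h6, h7]
    · rw [cd_valid hi, cd_invalid hi', Prod.mk.injEq] at h
      omega
  · by_cases hi' : vld R i'
    · rw [cd_invalid hi, cd_valid hi', Prod.mk.injEq] at h
      omega
    · rw [cd_invalid hi, cd_invalid hi', Prod.mk.injEq] at h
      exact enc_inj (by omega)

variable (R)

/-- the cocycle -/
noncomputable def Th (z : ZZ (List ℕ)) : KK IX := (fun i => kap (cd R i z), 1)

variable {R}

lemma ell_Th (l : (IX →₀ ℤ) × ℤ) (z : ZZ (List ℕ)) :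
    ell l (Th R z) = (l.1.sum fun i n => n • kap (cd R i z)) + l.2 • half := by
  rw [ell_apply]
  change _ + l.2 • iot 1 = _
  rw [iot_one]
  rfl

lemma toCircle_inj {a b : UnitAddCircle}
    (h : ((AddCircle.toCircle a : Circle) : ℂ) = ((AddCircle.toCircle b : Circle) : ℂ)) : a = b :=
  AddCircle.injective_toCircle one_ne_zero (Circle.ext h)

lemma Th_erg (z : ZZ (List ℕ)) (l : (IX →₀ ℤ) × ℤ) (h : EE l (Th R z) = 1) :
    ∀ k, EE l k = 1 := by
  have h1 : ell l (Th R z) = 0 := by
    apply toCircle_inj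
    rw [AddCircle.toCircle_zero]
    exact h
  rw [ell_Th] at h1
  obtain ⟨h2, j, hj⟩ := family_indep (cd_injective z) l h1
  intro k
  have h3 : ell l k = 0 := by
    rw [ell_apply, h2, Finsupp.sum_zero_index, hj, zero_add, add_smul, ← smul_add, ← map_add]
    have : k.2 + k.2 = 0 := CharTwo.add_self_eq_zero _
    rw [this, map_zero, smul_zero]
  rw [EE_apply, h3, AddCircle.toCircle_zero]
  rfl

lemma Th_neg (z : ZZ (List ℕ)) : EE ((0, 1) : (IX →₀ ℤ) × ℤ) (Th R z) ≠ 1 := by
  intro h
  have h1 : ell ((0, 1) : (IX →₀ ℤ) × ℤ) (Th R z) = 0 := by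
    apply toCircle_inj
    rw [AddCircle.toCircle_zero]
    exact h
  rw [ell_Th, Finsupp.sum_zero_index, zero_add, one_smul] at h1
  exact half_ne_zero h1

/-! ## Branches -/

/-- initial segments -/
def sgm (x : ℕ → ℕ) (n : ℕ) : List ℕ := (List.range n).map x

@[simp] lemma sgm_length (x : ℕ → ℕ) (n : ℕ) : (sgm x n).length = n := by simp [sgm]

lemma sgm_succ (x : ℕ → ℕ) (n : ℕ) : sgm x (n + 1) = sgm x n ++ [x n] := by
  simp [sgm, List.range_succ]

lemma exists_branch {Q : List ℕ → Prop} (hstep : ∀ s, Q s → ∃ a, Q (s ++ [a])) {s0 : List ℕ}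
    (h0 : Q s0) : ∃ x : ℕ → ℕ, ∀ n, Q (sgm x (s0.length + n)) := by
  choose! nx hnx using hstep
  let F : ℕ → List ℕ := fun n => Nat.rec s0 (fun _ l => l ++ [nx l]) n
  have hF0 : F 0 = s0 := rfl
  have hFs : ∀ n, F (n + 1) = F n ++ [nx (F n)] := fun n => rfl
  have hQ : ∀ n, Q (F n) := by
    intro n
    induction n with
    | zero => exact h0
    | succ n ih => rw [hFs]; exact hnx _ ih
  let x : ℕ → ℕ := fun k => if k < s0.length then s0.getD k 0 else nx (F (k - s0.length))
  have hx : ∀ n, sgm x (s0.length + n) = F n := by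
    intro n
    induction n with
    | zero =>
      rw [hF0, add_zero]
      unfold sgm
      apply List.ext_getElem
      · simp
      · intro k hk1 hk2
        simp only [List.getElem_map, List.getElem_range]
        change (if k < s0.length then s0.getD k 0 else nx (F (k - s0.length))) = _
        rw [if_pos hk2]
        simp [List.getD, hk2]
    | succ n ih =>
      rw [← add_assoc, sgm_succ, ih, hFs]
      congr 2
      change (if s0.length + n < s0.length then _ else nx (F (s0.length + n - s0.length))) = _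
      rw [if_neg (by omega), Nat.add_sub_cancel_left]
  exact ⟨x, fun n => by rw [hx]; exact hQ n⟩

lemma Th_rigid (hpc : ∀ s a, R (s ++ [a]) → R s) (hnb : ¬ ∃ x : ℕ → ℕ, ∀ n, R (sgm x n))
    (z z' : ZZ (List ℕ)) (h : ∀ i : IX, ∃ l : (IX →₀ ℤ) × ℤ,
      EE ((Finsupp.single i 1, 0) : (IX →₀ ℤ) × ℤ) (Th R z') = EE l (Th R z)) : z' = z := by
  have h1 : ∀ n, ∃ g : List ℕ →₀ ZMod 2, vld R (n, g) ∧
      ∀ s : List ℕ, s.length ≤ n → z' s = z s + lft g s := by
    intro n
    obtain ⟨l, hl⟩ := h (n, 0)
    have h2 : ell ((Finsupp.single (n, 0) 1, 0) : (IX →₀ ℤ) × ℤ) (Th R z') = ell l (Th R z) :=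
      toCircle_inj hl
    rw [ell_Th, ell_Th] at h2
    have h20 : (Finsupp.single ((n, 0) : IX) (1 : ℤ)).sum (fun i n => n • kap (cd R i z'))
        = kap (cd R (n, 0) z') := by
      rw [Finsupp.sum_single_index (h := fun i n => n • kap (cd R i z')) (zero_smul _ _), one_smul]
    simp only [h20, zero_smul, add_zero] at h2
    obtain ⟨i, hi⟩ := family_mem (φ := fun i => cd R i z) l h2
    have hv : vld R ((n, 0) : IX) := by
      intro t ht
      simp at ht
    rw [cd_valid hv] at hi
    by_cases hvi : vld R i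
    · rw [cd_valid hvi, Prod.mk.injEq] at hi
      obtain ⟨h3, h4⟩ := hi
      have h5 : i.1 = n := by simpa using h3
      subst h5
      refine ⟨i.2, hvi, fun s hs => ?_⟩
      have h6 := congrFun h4 s
      unfold trc at h6
      simp only at h6
      rw [if_pos hs, if_pos hs, lft_zero, add_zero] at h6
      exact h6.symm
    · rw [cd_invalid hvi, Prod.mk.injEq] at hi
      omega
  by_contra hne
  apply hnb
  obtain ⟨s0, hs0⟩ := Function.ne_iff.1 hne
  -- step
  have hR : ∀ s, z' s ≠ z s → R s := by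
    intro s hs
    obtain ⟨g, hg, hg2⟩ := h1 s.length
    have h2 := hg2 s le_rfl
    rw [lft_level (fun t ht => (hg t ht).1) rfl] at h2
    have h3 : g s ≠ 0 := by
      intro h0
      rw [h0, add_zero] at h2
      exact hs h2
    exact (hg s (Finsupp.mem_support_iff.2 h3)).2
  have hstep : ∀ s, z' s ≠ z s → ∃ a, z' (s ++ [a]) ≠ z (s ++ [a]) := by
    intro s hs
    obtain ⟨g, hg, hg2⟩ := h1 (s.length + 1)
    have h2 := hg2 s (by omega)
    have h3 : lft g s ≠ 0 := by
      intro h0
      rw [h0, add_zero] at h2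
      exact hs h2
    unfold lft Finsupp.sum at h3
    obtain ⟨t, ht, ht2⟩ := Finset.exists_ne_zero_of_sum_ne_zero h3
    have h4 : s <+: t := by
      by_contra hcon
      exact ht2 (if_neg hcon)
    obtain ⟨r, rfl⟩ := h4
    have h5 := (hg _ ht).1
    rw [List.length_append] at h5
    have h6 : r.length = 1 := by simpa using h5
    obtain ⟨a, rfl⟩ := List.length_eq_one_iff.1 h6
    refine ⟨a, ?_⟩
    rw [hg2 (s ++ [a]) (by simp), lft_level (n := s.length + 1) (fun t ht => (hg t ht).1) (by simp)]
    have h7 : g (s ++ [a]) ≠ 0 := Finsupp.mem_support_iff.1 ht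
    intro h8
    exact h7 (by simpa using h8)
  obtain ⟨x, hx⟩ := exists_branch (Q := fun s => z' s ≠ z s) hstep hs0
  refine ⟨x, ?_⟩
  have hx2 : ∀ n, R (sgm x (s0.length + n)) := fun n => hR _ (hx n)
  have hdown : ∀ m n, R (sgm x (n + m)) → R (sgm x n) := by
    intro m
    induction m with
    | zero => intro n h; exact h
    | succ m ih =>
      intro n h
      apply ih
      rw [← add_assoc, sgm_succ] at h
      exact hpc _ _ h
  intro n
  apply hdown s0.length n
  rw [add_comm]
  exact hx2 n

/-! ## The root along a branch -/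

lemma sgm_prefix {x : ℕ → ℕ} {n : ℕ} {s : List ℕ} :
    s <+: sgm x n ↔ s.length ≤ n ∧ s = sgm x s.length := by
  constructor
  · intro h
    have h1 : s.length ≤ n := by simpa using h.length_le
    refine ⟨h1, ?_⟩
    have h2 := List.prefix_iff_eq_take.1 h
    rw [h2]
    unfold sgm
    rw [← List.map_take, List.take_range, List.length_map, List.length_range]
  · rintro ⟨h1, h2⟩
    rw [h2, List.prefix_iff_eq_take]
    unfold sgm
    rw [← List.map_take, List.take_range, List.length_map, List.length_range]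
    congr 2
    simp [h1]

open Classical in
/-- the indicator function of a branch -/
noncomputable def hb (x : ℕ → ℕ) : ZZ (List ℕ) := fun s => if s = sgm x s.length then 1 else 0

lemma lft_single_sgm (x : ℕ → ℕ) (n : ℕ) (s : List ℕ) (hs : s.length ≤ n) :
    lft (Finsupp.single (sgm x n) 1) s = hb x s := by
  rw [lft_single]
  unfold hb
  by_cases h : s = sgm x s.length
  · rw [if_pos h, if_pos (sgm_prefix.2 ⟨hs, h⟩)]
  · rw [if_neg h, if_neg (fun h' => h (sgm_prefix.1 h').2)]

open Classical in
/-- the permutation of indices -/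
noncomputable def tau (R : List ℕ → Prop) (x : ℕ → ℕ) (i : IX) : IX :=
  if vld R i then (i.1, i.2 + Finsupp.single (sgm x i.1) 1) else i

lemma vld_add {x : ℕ → ℕ} (hx : ∀ n, R (sgm x n)) {i : IX} (h : vld R i) :
    vld R (i.1, i.2 + Finsupp.single (sgm x i.1) 1) := by
  intro t ht
  have h1 := Finsupp.support_add ht
  rw [Finset.mem_union] at h1
  rcases h1 with h1 | h1
  · exact h t h1
  · have h2 := Finsupp.support_single_subset h1
    rw [Finset.mem_singleton] at h2
    subst h2
    exact ⟨sgm_length _ _, hx _⟩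

lemma tau_tau {x : ℕ → ℕ} (hx : ∀ n, R (sgm x n)) (i : IX) : tau R x (tau R x i) = i := by
  by_cases h : vld R i
  · have h1 : tau R x i = (i.1, i.2 + Finsupp.single (sgm x i.1) 1) := if_pos h
    rw [h1]
    unfold tau
    rw [if_pos (vld_add hx h)]
    refine Prod.ext rfl ?_
    simp only
    rw [add_assoc, ← Finsupp.single_add, CharTwo.add_self_eq_zero, Finsupp.single_zero, add_zero]
  · have h1 : tau R x i = i := if_neg h
    rw [h1, h1]

lemma hb_add_hb (x : ℕ → ℕ) : hb x + hb x = 0 := by
  funext s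
  exact CharTwo.add_self_eq_zero _

lemma cd_tau {x : ℕ → ℕ} (hx : ∀ n, R (sgm x n)) (i : IX) (z : ZZ (List ℕ)) :
    cd R (tau R x i) (z + hb x) = cd R i z := by
  by_cases h : vld R i
  · have h1 : tau R x i = (i.1, i.2 + Finsupp.single (sgm x i.1) 1) := if_pos h
    rw [h1, cd_valid h, cd_valid (vld_add hx h)]
    refine Prod.ext rfl ?_
    funext s
    unfold trc
    simp only
    by_cases hs : s.length ≤ i.1
    · rw [if_pos hs, if_pos hs, lft_add]
      simp only [Pi.add_apply]
      rw [lft_single_sgm x i.1 s hs]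
      have : hb x s + hb x s = 0 := CharTwo.add_self_eq_zero _
      linear_combination this
    · rw [if_neg hs, if_neg hs]
  · have h1 : tau R x i = i := if_neg h
    rw [h1, cd_invalid h, cd_invalid h]

lemma hb_nil (x : ℕ → ℕ) : hb x [] = 1 := by
  unfold hb
  rw [if_pos]
  simp [sgm]

/-- the root -/
noncomputable def rt (R : List ℕ → Prop) (x : ℕ → ℕ) (ω : ZZ (List ℕ) × KK IX) :
    ZZ (List ℕ) × KK IX :=
  (ω.1 + hb x, (fun i => ω.2.1 (tau R x i)
    + if ω.1 [] = 0 then (Th R ω.1).1 (tau R x i) else 0, ω.2.2 + ω.1 []))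

lemma rt_rt {x : ℕ → ℕ} (hx : ∀ n, R (sgm x n)) (ω : ZZ (List ℕ) × KK IX) :
    rt R x (rt R x ω) = skew (Th R) ω := by
  have h01 : ∀ a : ZMod 2, a = 0 ∨ a = 1 := by decide
  have h10 : (1 : ZMod 2) ≠ 0 := by decide
  have h11 : (1 : ZMod 2) + 1 = 0 := by decide
  have hcode : ∀ i, (Th R (ω.1 + hb x)).1 (tau R x i) = (Th R ω.1).1 i := by
    intro i
    change kap (cd R (tau R x i) (ω.1 + hb x)) = kap (cd R i ω.1)
    rw [cd_tau hx]
  unfold rt skew
  refine Prod.ext ?_ (Prod.ext ?_ ?_)
  · simp only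
    rw [add_assoc, hb_add_hb, add_zero]
  · funext i
    simp only [Prod.fst_add, Pi.add_apply, tau_tau hx, hb_nil, hcode]
    rcases h01 (ω.1 []) with h | h
    · rw [h, if_pos rfl, zero_add, if_neg h10, add_zero]
    · rw [h, if_neg h10, h11, if_pos rfl, add_zero]
  · simp only [Prod.snd_add, Pi.add_apply, hb_nil]
    change ω.2.2 + ω.1 [] + (ω.1 [] + 1) = ω.2.2 + 1
    have : ω.1 [] + ω.1 [] = 0 := CharTwo.add_self_eq_zero _
    linear_combination this

end Pool.Agent.H48
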