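import Pool.Agent.H48.Codes

/-!
# The set of codes of squares is analytic
-/

set_option autoImplicit false

open MeasureTheory Filter Topology
open scoped unitInterval

namespace Pool.Agent.H48

/-- a jointly measurable parametrisation of all measurable self maps of the unit interval -/
lemma exists_param : ∃ G : (ℕ → ℕ) → unitInterval → unitInterval,
    Measurable (fun p : (ℕ → ℕ) × unitInterval => G p.1 p.2) ∧
    ∀ g : unitInterval → unitInterval, Measurable g → ∃ y, G y =ᵐ[volume] g := by
  let L := Lp ℝ 1 (volume : Measure unitInterval)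
  have : Fact ((1 : ENNReal) ≠ ⊤) := ⟨ENNReal.one_ne_top⟩
  have : SecondCountableTopology L := Lp.SecondCountableTopology
  let d : ℕ → L := TopologicalSpace.denseSeq L
  have hd : DenseRange d := TopologicalSpace.denseRange_denseSeq L
  let f : ℕ → unitInterval → ℝ := fun m t => (d m : unitInterval → ℝ) t
  have hf : ∀ m, Measurable (f m) := fun m => (Lp.stronglyMeasurable (d m)).measurable
  have hfj : Measurable (fun p : ℕ × unitInterval => f p.1 p.2) :=
    measurable_from_prod_countable_right fun m => hf m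
  refine ⟨fun y t => Set.projIcc 0 1 zero_le_one
    ((limsup (fun k => ENNReal.ofReal (f (y k) t)) atTop).toReal), ?_, ?_⟩
  · refine continuous_projIcc.measurable.comp (Measurable.ennreal_toReal ?_)
    refine Measurable.limsup fun k => Measurable.ennreal_ofReal ?_
    have hk : Measurable (fun p : (ℕ → ℕ) × unitInterval => (p.1 k, p.2)) :=
      ((measurable_pi_apply k).comp measurable_fst).prodMk measurable_snd
    exact hfj.comp hk
  · intro g hg
    have hgm : MemLp (fun t => ((g t : unitInterval) : ℝ)) 1 (volume : Measure unitInterval) := by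
      refine MemLp.of_bound (measurable_subtype_coe.comp hg).aestronglyMeasurable 1
        (Eventually.of_forall fun t => ?_)
      rw [Real.norm_eq_abs, abs_of_nonneg (g t).2.1]
      exact (g t).2.2
    let g' : L := hgm.toLp _
    have h1 : ∀ k : ℕ, ∃ m, dist (d m) g' < 1 / ((k : ℝ) + 1) := by
      intro k
      obtain ⟨m, hm⟩ := hd.exists_dist_lt g' (by positivity : (0 : ℝ) < 1 / ((k : ℝ) + 1))
      exact ⟨m, by rwa [dist_comm]⟩
    choose m hm using h1
    have h2 : Tendsto (fun k => d (m k)) atTop (𝓝 g') := by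
      rw [tendsto_iff_dist_tendsto_zero]
      exact squeeze_zero (fun _ => dist_nonneg) (fun k => (hm k).le)
        tendsto_one_div_add_atTop_nhds_zero_nat
    have h3 := tendstoInMeasure_of_tendsto_Lp h2
    obtain ⟨ns, -, hns⟩ := h3.exists_seq_tendsto_ae
    refine ⟨fun k => m (ns k), ?_⟩
    filter_upwards [hns, hgm.coeFn_toLp] with t ht1 ht2
    have h4 : Tendsto (fun k => f (m (ns k)) t) atTop (𝓝 (g t : ℝ)) := by
      rw [← ht2]; exact ht1
    have h5 : Tendsto (fun k => ENNReal.ofReal (f (m (ns k)) t)) atTop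
        (𝓝 (ENNReal.ofReal (g t : ℝ))) :=
      (ENNReal.continuous_ofReal.tendsto _).comp h4
    rw [h5.limsup_eq, ENNReal.toReal_ofReal (g t).2.1]
    exact Set.projIcc_val zero_le_one (g t)

/-- a criterion for being measure preserving -/
lemma mp_of_Iic {g : unitInterval → unitInterval} (hg : Measurable g)
    (h : ∀ q : ℚ, volume {t | ((g t : unitInterval) : ℝ) ≤ (q : ℝ)}
      = volume {t : unitInterval | (t : ℝ) ≤ (q : ℝ)}) :
    MeasurePreserving g volume volume := by
  have hv : Measurable (fun t : unitInterval => (t : ℝ)) := measurable_subtype_coe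
  have : IsProbabilityMeasure ((volume : Measure unitInterval).map g) :=
    Measure.isProbabilityMeasure_map hg.aemeasurable
  refine ⟨hg, ?_⟩
  have h6 : ((volume : Measure unitInterval).map g).map (fun t : unitInterval => (t : ℝ))
      = (volume : Measure unitInterval).map (fun t : unitInterval => (t : ℝ)) := by
    refine ext_of_generate_finite _
      (by rw [← Real.borel_eq_generateFrom_Iic_rat]; exact (BorelSpace.measurable_eq (α := ℝ)))
      Real.isPiSystem_Iic_rat ?_ ?_
    · intro s hs
      simp only [Set.mem_iUnion, Set.mem_singleton_iff] at hs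
      obtain ⟨r, rfl⟩ := hs
      rw [Measure.map_apply hv measurableSet_Iic, Measure.map_apply hg (hv measurableSet_Iic),
        Measure.map_apply hv measurableSet_Iic]
      exact h r
    · rw [Measure.map_apply hv MeasurableSet.univ, Measure.map_apply hg (hv MeasurableSet.univ),
        Measure.map_apply hv MeasurableSet.univ]
      simp
  ext s hs
  obtain ⟨J, hJ, rfl⟩ := hs
  have h7 := congrArg (fun m => m J) h6
  rw [Measure.map_apply hv hJ, Measure.map_apply hv hJ] at h7
  exact h7

theorem analytic_squares : AnalyticSet {c : (ℚ × ℚ) × (ℚ × ℚ) → ℝ |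
    ∃ S : unitInterval ≃ᵐ unitInterval, MeasurePreserving (⇑S) volume volume ∧
      c = cde (S.trans S)} := by
  obtain ⟨G, hG, hGs⟩ := exists_param
  have hG1 : ∀ y, Measurable (G y) := fun y => hG.comp measurable_prodMk_left
  set E : Set ((ℕ → ℕ) × (ℕ → ℕ)) := {p | (∀ q : ℚ,
      volume {t | ((G p.1 t : unitInterval) : ℝ) ≤ (q : ℝ)}
        = volume {t : unitInterval | (t : ℝ) ≤ (q : ℝ)}) ∧
      volume {t | G p.2 (G p.1 t) ≠ t} = 0} with hE
  have hGp1 : Measurable (fun p : ((ℕ → ℕ) × (ℕ → ℕ)) × unitInterval => G p.1.1 p.2) :=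
    hG.comp ((measurable_fst.comp measurable_fst).prodMk measurable_snd)
  have hGp2 : Measurable (fun p : ((ℕ → ℕ) × (ℕ → ℕ)) × unitInterval => G p.1.2 (G p.1.1 p.2)) :=
    hG.comp ((measurable_snd.comp measurable_fst).prodMk hGp1)
  have hGp3 : Measurable (fun p : ((ℕ → ℕ) × (ℕ → ℕ)) × unitInterval => G p.1.1 (G p.1.1 p.2)) :=
    hG.comp ((measurable_fst.comp measurable_fst).prodMk hGp1)
  have hEm : MeasurableSet E := by
    have h1 : E = (⋂ q : ℚ, {p : (ℕ → ℕ) × (ℕ → ℕ) |
        volume {t | ((G p.1 t : unitInterval) : ℝ) ≤ (q : ℝ)}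
        = volume {t : unitInterval | (t : ℝ) ≤ (q : ℝ)}}) ∩
        {p : (ℕ → ℕ) × (ℕ → ℕ) | volume {t | G p.2 (G p.1 t) ≠ t} = 0} := by
      ext p
      simp only [hE, Set.mem_inter_iff, Set.mem_iInter]
      exact Iff.rfl
    rw [h1]
    refine (MeasurableSet.iInter fun q => ?_).inter ?_
    · have h2 : MeasurableSet {p : ((ℕ → ℕ) × (ℕ → ℕ)) × unitInterval |
          ((G p.1.1 p.2 : unitInterval) : ℝ) ≤ (q : ℝ)} :=
        measurableSet_le (measurable_subtype_coe.comp hGp1) measurable_const
      exact measurableSet_eq_fun (measurable_measure_prodMk_left (ν := volume) h2) measurable_const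
    · have h2 : MeasurableSet {p : ((ℕ → ℕ) × (ℕ → ℕ)) × unitInterval | G p.1.2 (G p.1.1 p.2) ≠ p.2} :=
        (measurableSet_eq_fun hGp2 measurable_snd).compl
      exact measurableSet_eq_fun (measurable_measure_prodMk_left (ν := volume) h2) measurable_const
  have hFm : Measurable (fun p : (ℕ → ℕ) × (ℕ → ℕ) => cde (G p.1 ∘ G p.1)) := by
    refine measurable_pi_lambda _ fun r => Measurable.ennreal_toReal ?_
    have h2 : MeasurableSet {p : ((ℕ → ℕ) × (ℕ → ℕ)) × unitInterval |
        G p.1.1 (G p.1.1 p.2) ∈ RI r.1 ∧ p.2 ∈ RI r.2} :=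
      (hGp3 (measurableSet_RI r.1)).inter (measurable_snd (measurableSet_RI r.2))
    exact measurable_measure_prodMk_left (ν := volume) h2
  have hcomp : ∀ {S : unitInterval → unitInterval} {g : unitInterval → unitInterval},
      MeasurePreserving g volume volume → S =ᵐ[volume] g → cde (S ∘ S) = cde (g ∘ g) := by
    intro S g hg hSg
    apply cde_congr
    filter_upwards [hSg, hg.quasiMeasurePreserving.ae hSg] with t h1 h2
    change S (S t) = g (g t)
    rw [h1, h2]
  have himg : {c : (ℚ × ℚ) × (ℚ × ℚ) → ℝ |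
      ∃ S : unitInterval ≃ᵐ unitInterval, MeasurePreserving (⇑S) volume volume ∧
      c = cde (S.trans S)} = (fun p : (ℕ → ℕ) × (ℕ → ℕ) => cde (G p.1 ∘ G p.1)) '' E := by
    ext c
    constructor
    · rintro ⟨S, hS, rfl⟩
      obtain ⟨y1, hy1⟩ := hGs S S.measurable
      obtain ⟨y2, hy2⟩ := hGs S.symm S.symm.measurable
      have hmp : MeasurePreserving (G y1) volume volume :=
        ⟨hG1 y1, by rw [Measure.map_congr hy1, hS.map_eq]⟩
      refine ⟨(y1, y2), ⟨fun q => ?_, ?_⟩, ?_⟩
      · have h3 : MeasurableSet {t : unitInterval | (t : ℝ) ≤ (q : ℝ)} :=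
          measurableSet_le measurable_subtype_coe measurable_const
        exact hmp.measure_preimage h3.nullMeasurableSet
      · rw [← ae_iff]
        filter_upwards [hy1, hmp.quasiMeasurePreserving.ae hy2] with t h1 h2
        rw [h2, h1, S.symm_apply_apply]
      · exact (hcomp (S := S) (g := G y1) hmp hy1.symm).symm
    · rintro ⟨⟨y1, y2⟩, ⟨hp1, hp2⟩, rfl⟩
      have hmp : MeasurePreserving (G y1) volume volume := mp_of_Iic (hG1 y1) hp1
      set A : Set unitInterval := {t | G y2 (G y1 t) = t} with hA
      have hAm : MeasurableSet A := measurableSet_eq_fun ((hG1 y2).comp (hG1 y1)) measurable_id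
      have hA0 : volume Aᶜ = 0 := hp2
      have hinj : Set.InjOn (G y1) A := by
        intro a ha b hb hab
        have ha' : G y2 (G y1 a) = a := ha
        have hb' : G y2 (G y1 b) = b := hb
        rw [← ha', ← hb', hab]
      obtain ⟨e, he, hea⟩ := exists_equiv_ae hmp hAm hA0 hinj
        measurableSet_cantI volume_cantI not_countable_cantI
        measurableSet_cantI volume_cantI not_countable_cantI
      exact ⟨e, he, (hcomp (S := e) (g := G y1) hmp hea).symm⟩
  rw [himg]
  exact hEm.analyticSet_image hFm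

end Pool.Agent.H48
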